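import Pool.Agent.helper20.KP.Defs

/-!
# Nested drawings from integer data
-/

set_option autoImplicit false

open Set

namespace Pool.Agent.helper20.KP

/-- orientation of three points -/
def orient {R : Type*} [Ring R] (a b c : R × R) : R :=
  (b.1 - a.1) * (c.2 - a.2) - (b.2 - a.2) * (c.1 - a.1)

/-- the real point -/
def toR (a : ℤ × ℤ) : ℝ × ℝ := ((a.1 : ℝ), (a.2 : ℝ))

theorem orient_toR (a b c : ℤ × ℤ) : orient (toR a) (toR b) (toR c) = ((orient a b c : ℤ) : ℝ) := by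
  simp [orient, toR]

theorem toR_inj {a b : ℤ × ℤ} (h : toR a = toR b) : a = b := by
  rw [toR, toR, Prod.mk.injEq] at h
  exact Prod.ext (by exact_mod_cast h.1) (by exact_mod_cast h.2)

theorem mem_seg {a b x : ℝ × ℝ} (h : x ∈ segment ℝ a b) :
    ∃ s : ℝ, 0 ≤ s ∧ s ≤ 1 ∧ x.1 = a.1 + s * (b.1 - a.1) ∧ x.2 = a.2 + s * (b.2 - a.2) := by
  rw [segment_eq_image'] at h
  obtain ⟨s, hs, rfl⟩ := h
  exact ⟨s, hs.1, hs.2, by simp, by simp⟩

theorem orient_seg {a b c d x : ℝ × ℝ} (h : x ∈ segment ℝ c d) :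
    ∃ s : ℝ, 0 ≤ s ∧ s ≤ 1 ∧ orient a b x = (1 - s) * orient a b c + s * orient a b d := by
  obtain ⟨s, h0, h1, h2, h3⟩ := mem_seg h
  refine ⟨s, h0, h1, ?_⟩
  rw [orient, orient, orient, h2, h3]
  ring

theorem orient_self {a b x : ℝ × ℝ} (h : x ∈ segment ℝ a b) : orient a b x = 0 := by
  obtain ⟨s, h0, h1, h2, h3⟩ := mem_seg h
  rw [orient, h2, h3]
  ring

theorem sep_pos {a b c d x : ℝ × ℝ} (h1 : 0 < orient a b c) (h2 : 0 < orient a b d)
    (hx : x ∈ segment ℝ a b) (hx' : x ∈ segment ℝ c d) : False := by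
  obtain ⟨s, h3, h4, h5⟩ := orient_seg (a := a) (b := b) hx'
  rw [orient_self hx] at h5
  nlinarith [mul_nonneg h3 h2.le, mul_nonneg (sub_nonneg.2 h4) h1.le]

theorem sep_neg {a b c d x : ℝ × ℝ} (h1 : orient a b c < 0) (h2 : orient a b d < 0)
    (hx : x ∈ segment ℝ a b) (hx' : x ∈ segment ℝ c d) : False := by
  obtain ⟨s, h3, h4, h5⟩ := orient_seg (a := a) (b := b) hx'
  rw [orient_self hx] at h5
  nlinarith [mul_nonneg h3 (neg_pos.2 h2).le, mul_nonneg (sub_nonneg.2 h4) (neg_pos.2 h1).le]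

theorem share {a b d x : ℝ × ℝ} (h : orient a b d ≠ 0) (hx : x ∈ segment ℝ a b)
    (hx' : x ∈ segment ℝ a d) : x = a := by
  obtain ⟨s, -, -, h1, h2⟩ := mem_seg hx'
  have h3 := orient_self hx
  have h4 : s * orient a b d = 0 := by
    rw [← h3, orient, orient, h1, h2]
    ring
  have h5 : s = 0 := (mul_eq_zero.1 h4).resolve_right h
  rw [h5] at h1 h2
  exact Prod.ext (by rw [h1]; ring) (by rw [h2]; ring)

/-- `c`, `d` are strictly on the same side of `a b` -/
def sameSide (a b c d : ℤ × ℤ) : Bool :=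
  (decide (0 < orient a b c) && decide (0 < orient a b d)) ||
    (decide (orient a b c < 0) && decide (orient a b d < 0))

theorem sameSide_disj {a b c d : ℤ × ℤ} (h : sameSide a b c d = true) {x : ℝ × ℝ}
    (hx : x ∈ segment ℝ (toR a) (toR b)) (hx' : x ∈ segment ℝ (toR c) (toR d)) : False := by
  simp only [sameSide, Bool.or_eq_true, Bool.and_eq_true, decide_eq_true_eq] at h
  rcases h with ⟨h1, h2⟩ | ⟨h1, h2⟩
  · exact sep_pos (by rw [orient_toR]; exact_mod_cast h1) (by rw [orient_toR]; exact_mod_cast h2)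
      hx hx'
  · exact sep_neg (by rw [orient_toR]; exact_mod_cast h1) (by rw [orient_toR]; exact_mod_cast h2)
      hx hx'

theorem share_toR {a b d : ℤ × ℤ} (h : orient a b d ≠ 0) {x : ℝ × ℝ}
    (hx : x ∈ segment ℝ (toR a) (toR b)) (hx' : x ∈ segment ℝ (toR a) (toR d)) : x = toR a :=
  share (by rw [orient_toR]; exact_mod_cast h) hx hx'

/-- two edges do not cross -/
def okPair (p : ℕ → ℤ × ℤ) (e f : ℕ × ℕ) : Bool :=
  (Nat.beq e.1 f.1 && Nat.beq e.2 f.2) || (Nat.beq e.1 f.2 && Nat.beq e.2 f.1) ||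
  (Nat.beq e.1 f.1 && decide (orient (p e.1) (p e.2) (p f.2) ≠ 0)) ||
  (Nat.beq e.1 f.2 && decide (orient (p e.1) (p e.2) (p f.1) ≠ 0)) ||
  (Nat.beq e.2 f.1 && decide (orient (p e.2) (p e.1) (p f.2) ≠ 0)) ||
  (Nat.beq e.2 f.2 && decide (orient (p e.2) (p e.1) (p f.1) ≠ 0)) ||
  sameSide (p e.1) (p e.2) (p f.1) (p f.2) || sameSide (p f.1) (p f.2) (p e.1) (p e.2)

theorem okPair_cross {p : ℕ → ℤ × ℤ} {e f : ℕ × ℕ} (h : okPair p e f = true)
    (h1 : ¬ (e.1 = f.1 ∧ e.2 = f.2)) (h2 : ¬ (e.1 = f.2 ∧ e.2 = f.1)) {x : ℝ × ℝ}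
    (hx : x ∈ segment ℝ (toR (p e.1)) (toR (p e.2)))
    (hx' : x ∈ segment ℝ (toR (p f.1)) (toR (p f.2))) :
    ∃ w, (w = e.1 ∨ w = e.2) ∧ (w = f.1 ∨ w = f.2) ∧ x = toR (p w) := by
  simp only [okPair, Bool.or_eq_true, Bool.and_eq_true, decide_eq_true_eq] at h
  rcases h with ((((((h | h) | h) | h) | h) | h) | h) | h
  · exact absurd ⟨Nat.eq_of_beq_eq_true h.1, Nat.eq_of_beq_eq_true h.2⟩ h1
  · exact absurd ⟨Nat.eq_of_beq_eq_true h.1, Nat.eq_of_beq_eq_true h.2⟩ h2
  · have h3 := Nat.eq_of_beq_eq_true h.1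
    refine ⟨e.1, Or.inl rfl, Or.inl h3, share_toR h.2 hx ?_⟩
    rw [← h3] at hx'
    exact hx'
  · have h3 := Nat.eq_of_beq_eq_true h.1
    refine ⟨e.1, Or.inl rfl, Or.inr h3, share_toR h.2 hx ?_⟩
    rw [← h3, segment_symm] at hx'
    exact hx'
  · have h3 := Nat.eq_of_beq_eq_true h.1
    rw [segment_symm] at hx
    refine ⟨e.2, Or.inr rfl, Or.inl h3, share_toR h.2 hx ?_⟩
    rw [← h3] at hx'
    exact hx'
  · have h3 := Nat.eq_of_beq_eq_true h.1
    rw [segment_symm] at hx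
    refine ⟨e.2, Or.inr rfl, Or.inr h3, share_toR h.2 hx ?_⟩
    rw [← h3, segment_symm] at hx'
    exact hx'
  · exact (sameSide_disj h hx hx').elim
  · exact (sameSide_disj h hx' hx).elim

/-! ### the contraction -/

section map
variable (a b c a' b' c' : ℝ × ℝ)

/-- the linear part -/
noncomputable def linPart : (ℝ × ℝ) →ₗ[ℝ] (ℝ × ℝ) where
  toFun v := (((v.1 * (c.2 - a.2) - v.2 * (c.1 - a.1)) / orient a b c) * (b'.1 - a'.1) +
      (((b.1 - a.1) * v.2 - (b.2 - a.2) * v.1) / orient a b c) * (c'.1 - a'.1),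
    ((v.1 * (c.2 - a.2) - v.2 * (c.1 - a.1)) / orient a b c) * (b'.2 - a'.2) +
      (((b.1 - a.1) * v.2 - (b.2 - a.2) * v.1) / orient a b c) * (c'.2 - a'.2))
  map_add' u v := by
    refine Prod.ext ?_ ?_ <;> simp only [Prod.fst_add, Prod.snd_add] <;> ring
  map_smul' r v := by
    refine Prod.ext ?_ ?_ <;>
      simp only [Prod.smul_fst, Prod.smul_snd, smul_eq_mul, RingHom.id_apply] <;> ring

/-- the affine map which takes `a, b, c` to `a', b', c'` -/
noncomputable def affMap : (ℝ × ℝ) →ᵃ[ℝ] (ℝ × ℝ) where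
  toFun x := a' + linPart a b c a' b' c' (x - a)
  linear := linPart a b c a' b' c'
  map_vadd' x v := by
    rw [vadd_eq_add, vadd_eq_add, add_sub_assoc, map_add]
    abel

theorem affMap_apply (x : ℝ × ℝ) :
    affMap a b c a' b' c' x = a' + linPart a b c a' b' c' (x - a) := rfl

variable {a b c a' b' c'}

/-- barycentric form -/
theorem affMap_bary (h : orient a b c ≠ 0) (x : ℝ × ℝ) :
    (affMap a b c a' b' c' x).1 = (orient b c x / orient a b c) * a'.1 +
        (orient c a x / orient a b c) * b'.1 + (orient a b x / orient a b c) * c'.1 ∧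
      (affMap a b c a' b' c' x).2 = (orient b c x / orient a b c) * a'.2 +
        (orient c a x / orient a b c) * b'.2 + (orient a b x / orient a b c) * c'.2 := by
  have h1 : orient b c x / orient a b c = 1 - orient c a x / orient a b c -
      orient a b x / orient a b c := by
    rw [eq_sub_iff_add_eq, eq_sub_iff_add_eq, ← add_div, ← add_div, div_eq_one_iff_eq h]
    simp only [orient]
    ring
  have h2 : (x - a).1 * (c.2 - a.2) - (x - a).2 * (c.1 - a.1) = orient c a x := by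
    simp only [orient, Prod.fst_sub, Prod.snd_sub]
    ring
  have h3 : (b.1 - a.1) * (x - a).2 - (b.2 - a.2) * (x - a).1 = orient a b x := by
    simp only [orient, Prod.fst_sub, Prod.snd_sub]
  rw [affMap_apply, h1]
  constructor
  · change a'.1 + (((x - a).1 * (c.2 - a.2) - (x - a).2 * (c.1 - a.1)) / orient a b c *
      (b'.1 - a'.1) + ((b.1 - a.1) * (x - a).2 - (b.2 - a.2) * (x - a).1) / orient a b c *
      (c'.1 - a'.1)) = _
    rw [h2, h3]
    ring
  · change a'.2 + (((x - a).1 * (c.2 - a.2) - (x - a).2 * (c.1 - a.1)) / orient a b c *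
      (b'.2 - a'.2) + ((b.1 - a.1) * (x - a).2 - (b.2 - a.2) * (x - a).1) / orient a b c *
      (c'.2 - a'.2)) = _
    rw [h2, h3]
    ring

theorem affMap_a (h : orient a b c ≠ 0) : affMap a b c a' b' c' a = a' := by
  have h1 := affMap_bary (a' := a') (b' := b') (c' := c') h a
  have h2 : orient b c a = orient a b c := by simp only [orient]; ring
  have h3 : orient c a a = 0 := by simp only [orient]; ring
  have h4 : orient a b a = 0 := by simp only [orient]; ring
  rw [h2, h3, h4, div_self h, zero_div] at h1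
  exact Prod.ext (by rw [h1.1]; ring) (by rw [h1.2]; ring)

theorem affMap_b (h : orient a b c ≠ 0) : affMap a b c a' b' c' b = b' := by
  have h1 := affMap_bary (a' := a') (b' := b') (c' := c') h b
  have h2 : orient b c b = 0 := by simp only [orient]; ring
  have h3 : orient c a b = orient a b c := by simp only [orient]; ring
  have h4 : orient a b b = 0 := by simp only [orient]; ring
  rw [h2, h3, h4, div_self h, zero_div] at h1
  exact Prod.ext (by rw [h1.1]; ring) (by rw [h1.2]; ring)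

/-- an affine function at a barycentric combination -/
theorem affMap_fun (h : orient a b c ≠ 0) (α β γ : ℝ) (x : ℝ × ℝ) :
    α * (affMap a b c a' b' c' x).1 + β * (affMap a b c a' b' c' x).2 + γ =
      (orient b c x / orient a b c) * (α * a'.1 + β * a'.2 + γ) +
      (orient c a x / orient a b c) * (α * b'.1 + β * b'.2 + γ) +
      (orient a b x / orient a b c) * (α * c'.1 + β * c'.2 + γ) := by
  obtain ⟨h1, h2⟩ := affMap_bary (a' := a') (b' := b') (c' := c') h x
  have h3 : orient b c x / orient a b c + orient c a x / orient a b c +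
      orient a b x / orient a b c = 1 := by
    rw [← add_div, ← add_div, div_eq_one_iff_eq h]
    simp only [orient]
    ring
  rw [h1, h2]
  linear_combination (-γ) * h3

theorem affMap_inj (h : orient a b c ≠ 0) (h' : orient a' b' c' ≠ 0) :
    Function.Injective (affMap a b c a' b' c') := by
  intro x y hxy
  have key : ∀ z, orient a' b' (affMap a b c a' b' c' z) =
      (orient a b z / orient a b c) * orient a' b' c' ∧
      orient c' a' (affMap a b c a' b' c' z) = (orient c a z / orient a b c) * orient a' b' c' := by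
    intro z
    obtain ⟨h1, h2⟩ := affMap_bary (a' := a') (b' := b') (c' := c') h z
    have h3 : orient b c z / orient a b c = 1 - orient c a z / orient a b c -
        orient a b z / orient a b c := by
      rw [eq_sub_iff_add_eq, eq_sub_iff_add_eq, ← add_div, ← add_div, div_eq_one_iff_eq h]
      simp only [orient]
      ring
    rw [h3] at h1 h2
    constructor
    · rw [orient, h1, h2]
      simp only [orient]
      ring
    · rw [orient, h1, h2]
      simp only [orient]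
      ring
  have h1 : orient a b x = orient a b y := by
    have h2 := (key x).1
    rw [hxy, (key y).1] at h2
    have h3 := mul_right_cancel₀ h' h2
    have h4 := (div_left_inj' h).1 h3
    exact h4.symm
  have h2 : orient c a x = orient c a y := by
    have h2 := (key x).2
    rw [hxy, (key y).2] at h2
    have h3 := mul_right_cancel₀ h' h2
    have h4 := (div_left_inj' h).1 h3
    exact h4.symm
  have h3 : (x.1 - y.1) * orient a b c = 0 := by
    simp only [orient] at h1 h2 ⊢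
    linear_combination (b.1 - a.1) * h2 + (c.1 - a.1) * h1
  have h4 : (x.2 - y.2) * orient a b c = 0 := by
    simp only [orient] at h1 h2 ⊢
    linear_combination (b.2 - a.2) * h2 + (c.2 - a.2) * h1
  exact Prod.ext (sub_eq_zero.1 ((mul_eq_zero.1 h3).resolve_right h))
    (sub_eq_zero.1 ((mul_eq_zero.1 h4).resolve_right h))

theorem affMap_orient (h : orient a b c ≠ 0) (u v x : ℝ × ℝ) :
    orient u v (affMap a b c a' b' c' x) = (orient b c x / orient a b c) * orient u v a' +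
      (orient c a x / orient a b c) * orient u v b' +
      (orient a b x / orient a b c) * orient u v c' := by
  have h1 := affMap_fun (a' := a') (b' := b') (c' := c') h (-(v.2 - u.2)) (v.1 - u.1)
    ((v.2 - u.2) * u.1 - (v.1 - u.1) * u.2) x
  simp only [orient] at h1 ⊢
  linear_combination h1

end map

/-! ### nested drawings from data -/

/-- the triangle `a b c` -/
def tri {R : Type*} [Ring R] [LE R] (a b c : R × R) : Set (R × R) :=
  {x | 0 ≤ orient a b x ∧ 0 ≤ orient b c x ∧ 0 ≤ orient c a x}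

theorem convex_half (a b : ℝ × ℝ) : Convex ℝ {x : ℝ × ℝ | 0 ≤ orient a b x} := by
  rw [convex_iff_segment_subset]
  intro x hx y hy z hz
  obtain ⟨s, h0, h1, h2⟩ := orient_seg (a := a) (b := b) hz
  change 0 ≤ orient a b z
  rw [h2]
  exact add_nonneg (mul_nonneg (sub_nonneg.2 h1) hx) (mul_nonneg h0 hy)

theorem convex_tri (a b c : ℝ × ℝ) : Convex ℝ (tri a b c) :=
  (convex_half a b).inter ((convex_half b c).inter (convex_half c a))

/-- membership in the triangle, integer points -/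
def inTri (a b c x : ℤ × ℤ) : Bool :=
  decide (0 ≤ orient a b x) && decide (0 ≤ orient b c x) && decide (0 ≤ orient c a x)

theorem inTri_mem {a b c x : ℤ × ℤ} (h : inTri a b c x = true) :
    toR x ∈ tri (toR a) (toR b) (toR c) := by
  simp only [inTri, Bool.and_eq_true, decide_eq_true_eq] at h
  obtain ⟨⟨h1, h2⟩, h3⟩ := h
  refine ⟨?_, ?_, ?_⟩
  · rw [orient_toR]; exact_mod_cast h1
  · rw [orient_toR]; exact_mod_cast h2
  · rw [orient_toR]; exact_mod_cast h3

/-- value of an affine function at a point -/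
def ev (l : ℤ × ℤ × ℤ) (x : ℤ × ℤ) : ℤ := l.1 * x.1 + l.2.1 * x.2 + l.2.2

/-- value at a real point -/
noncomputable def evR (l : ℤ × ℤ × ℤ) (x : ℝ × ℝ) : ℝ :=
  (l.1 : ℝ) * x.1 + (l.2.1 : ℝ) * x.2 + (l.2.2 : ℝ)

theorem evR_toR (l : ℤ × ℤ × ℤ) (x : ℤ × ℤ) : evR l (toR x) = ((ev l x : ℤ) : ℝ) := by
  simp [evR, ev, toR]

theorem evR_seg (l : ℤ × ℤ × ℤ) {a b x : ℝ × ℝ} (h : x ∈ segment ℝ a b) :
    ∃ s : ℝ, 0 ≤ s ∧ s ≤ 1 ∧ evR l x = (1 - s) * evR l a + s * evR l b ∧
      (s = 0 → x = a) ∧ (s = 1 → x = b) := by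
  obtain ⟨s, h0, h1, h2, h3⟩ := mem_seg h
  refine ⟨s, h0, h1, ?_, ?_, ?_⟩
  · rw [evR, evR, evR, h2, h3]
    ring
  · rintro rfl
    exact Prod.ext (by rw [h2]; ring) (by rw [h3]; ring)
  · rintro rfl
    exact Prod.ext (by rw [h2]; ring) (by rw [h3]; ring)

/-- the line `l` separates the edge `e` from the next copy, up to a common vertex -/
def okLine (N : ℕ) (p : ℕ → ℤ × ℤ) (l : ℤ × ℤ × ℤ) (e : ℕ × ℕ) : Bool :=
  (decide (0 < ev l (p e.1)) && decide (0 < ev l (p e.2))) ||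
  (decide (ev l (p e.1) = 0) && decide (0 < ev l (p e.2)) &&
    (Nat.beq e.1 N || Nat.beq e.1 (N + 1))) ||
  (decide (ev l (p e.2) = 0) && decide (0 < ev l (p e.1)) &&
    (Nat.beq e.2 N || Nat.beq e.2 (N + 1)))

/-- all checks -/
def checkGeom (N : ℕ) (E : List (ℕ × ℕ)) (p : ℕ → ℤ × ℤ) (w w' : ℤ × ℤ)
    (lines : List (ℤ × ℤ × ℤ)) : Bool :=
  Nat.ble 2 N && decide (0 < orient (p 0) (p 1) w) &&
  decide (orient (p N) (p (N + 1)) w' ≠ 0) &&
  ((List.range (N + 2)).all fun j => inTri (p 0) (p 1) w (p j)) && inTri (p 0) (p 1) w w' &&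
  ((List.range (N + 2)).all fun i => (List.range (N + 2)).all fun j =>
    Nat.beq i j || !(decide (p i = p j))) &&
  (E.all fun e => E.all fun f => okPair p e f) &&
  (E.all fun e => Nat.ble e.1 (N + 1) && Nat.ble e.2 (N + 1) && lines.any fun l =>
    decide (ev l (p N) ≤ 0) && decide (ev l (p (N + 1)) ≤ 0) && decide (ev l w' ≤ 0) &&
      okLine N p l e) &&
  (List.range (N + 2)).all fun j => E.any fun e => Nat.beq e.1 j || Nat.beq e.2 j

/-- the checks as propositions -/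
structure Checks (N : ℕ) (E : List (ℕ × ℕ)) (p : ℕ → ℤ × ℤ) (w w' : ℤ × ℤ) : Prop where
  hN : 2 ≤ N
  pos : 0 < orient (p 0) (p 1) w
  pos' : orient (p N) (p (N + 1)) w' ≠ 0
  mem : ∀ j ≤ N + 1, inTri (p 0) (p 1) w (p j) = true
  mem' : inTri (p 0) (p 1) w w' = true
  inj : ∀ i ≤ N + 1, ∀ j ≤ N + 1, p i = p j → i = j
  pair : ∀ e ∈ E, ∀ f ∈ E, okPair p e f = true
  line : ∀ e ∈ E, e.1 ≤ N + 1 ∧ e.2 ≤ N + 1 ∧ ∃ l : ℤ × ℤ × ℤ,
    ev l (p N) ≤ 0 ∧ ev l (p (N + 1)) ≤ 0 ∧ ev l w' ≤ 0 ∧ okLine N p l e = true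
  cov : ∀ j ≤ N + 1, ∃ e ∈ E, e.1 = j ∨ e.2 = j

theorem checks_of {N : ℕ} {E : List (ℕ × ℕ)} {p : ℕ → ℤ × ℤ} {w w' : ℤ × ℤ}
    {lines : List (ℤ × ℤ × ℤ)} (h : checkGeom N E p w w' lines = true) :
    Checks N E p w w' := by
  simp only [checkGeom, Bool.and_eq_true] at h
  obtain ⟨⟨⟨⟨⟨⟨⟨⟨h1, h2⟩, h3⟩, h4⟩, h5⟩, h6⟩, h7⟩, h8⟩, h9⟩ := h
  refine ⟨Nat.le_of_ble_eq_true h1, of_decide_eq_true h2, of_decide_eq_true h3, ?_, h5, ?_, ?_,
    ?_, ?_⟩
  · intro j hj
    exact (List.all_eq_true.1 h4) j (List.mem_range.2 (by omega))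
  · intro i hi j hj hij
    have h10 := (List.all_eq_true.1 ((List.all_eq_true.1 h6) i (List.mem_range.2 (by omega)))) j
      (List.mem_range.2 (by omega))
    rw [Bool.or_eq_true] at h10
    rcases h10 with h10 | h10
    · exact Nat.eq_of_beq_eq_true h10
    · rw [decide_eq_true hij] at h10
      simp at h10
  · intro e he f hf
    exact (List.all_eq_true.1 ((List.all_eq_true.1 h7) e he)) f hf
  · intro e he
    have h10 := (List.all_eq_true.1 h8) e he
    rw [Bool.and_eq_true, Bool.and_eq_true, List.any_eq_true] at h10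
    obtain ⟨⟨h11, h12⟩, l, -, h13⟩ := h10
    simp only [Bool.and_eq_true, decide_eq_true_eq] at h13
    obtain ⟨⟨⟨h14, h15⟩, h16⟩, h17⟩ := h13
    exact ⟨Nat.le_of_ble_eq_true h11, Nat.le_of_ble_eq_true h12, l, h14, h15, h16, h17⟩
  · intro j hj
    have h10 := (List.all_eq_true.1 h9) j (List.mem_range.2 (by omega))
    rw [List.any_eq_true] at h10
    obtain ⟨e, he, h11⟩ := h10
    rw [Bool.or_eq_true] at h11
    rcases h11 with h11 | h11
    · exact ⟨e, he, Or.inl (Nat.eq_of_beq_eq_true h11)⟩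
    · exact ⟨e, he, Or.inr (Nat.eq_of_beq_eq_true h11)⟩

section build
variable {N : ℕ} {E : List (ℕ × ℕ)} {p : ℕ → ℤ × ℤ} {w w' : ℤ × ℤ} (h : Checks N E p w w')
include h

theorem Checks.pos_ne : orient (toR (p 0)) (toR (p 1)) (toR w) ≠ 0 := by
  rw [orient_toR]
  have := h.pos
  exact_mod_cast this.ne'

theorem Checks.cross : ∀ e ∈ E, ∀ f ∈ E, ¬ (e.1 = f.1 ∧ e.2 = f.2) → ¬ (e.1 = f.2 ∧ e.2 = f.1) →
    ∀ x, x ∈ segment ℝ (toR (p e.1)) (toR (p e.2)) →
      x ∈ segment ℝ (toR (p f.1)) (toR (p f.2)) →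
      ∃ w, (w = e.1 ∨ w = e.2) ∧ (w = f.1 ∨ w = f.2) ∧ x = toR (p w) :=
  fun e he f hf h1 h2 _ hx hx' => okPair_cross (h.pair e he f hf) h1 h2 hx hx'

theorem Checks.vert : ∀ e ∈ E, ∀ j ≤ N + 1,
    toR (p j) ∈ segment ℝ (toR (p e.1)) (toR (p e.2)) → j = e.1 ∨ j = e.2 := by
  intro e he j hj hx
  obtain ⟨f, hf, hfj⟩ := h.cov j hj
  have he' := h.line e he
  have hx' : toR (p j) ∈ segment ℝ (toR (p f.1)) (toR (p f.2)) := by
    rcases hfj with rfl | rfl
    · exact left_mem_segment ℝ _ _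
    · exact right_mem_segment ℝ _ _
  by_cases h1 : e.1 = f.1 ∧ e.2 = f.2
  · rw [h1.1, h1.2]
    exact hfj.imp Eq.symm Eq.symm
  by_cases h2 : e.1 = f.2 ∧ e.2 = f.1
  · rw [h2.1, h2.2]
    exact (hfj.imp Eq.symm Eq.symm).symm
  obtain ⟨v, hv1, -, hv3⟩ := h.cross e he f hf h1 h2 _ hx hx'
  have hv : v ≤ N + 1 := by
    rcases hv1 with rfl | rfl
    · exact he'.1
    · exact he'.2.1
  rw [h.inj j hj v hv (toR_inj hv3)]
  exact hv1

theorem Checks.tri_coord {x : ℝ × ℝ} (hx : x ∈ tri (toR (p 0)) (toR (p 1)) (toR w)) :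
    0 ≤ orient (toR (p 1)) (toR w) x / orient (toR (p 0)) (toR (p 1)) (toR w) ∧
    0 ≤ orient (toR w) (toR (p 0)) x / orient (toR (p 0)) (toR (p 1)) (toR w) ∧
    0 ≤ orient (toR (p 0)) (toR (p 1)) x / orient (toR (p 0)) (toR (p 1)) (toR w) := by
  have h0 : (0 : ℝ) < orient (toR (p 0)) (toR (p 1)) (toR w) := by
    rw [orient_toR]
    exact_mod_cast h.pos
  exact ⟨div_nonneg hx.2.1 h0.le, div_nonneg hx.2.2 h0.le, div_nonneg hx.1 h0.le⟩

theorem Checks.deep : ∀ e ∈ E, ∀ x, x ∈ segment ℝ (toR (p e.1)) (toR (p e.2)) →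
    x ∈ affMap (toR (p 0)) (toR (p 1)) (toR w) (toR (p N)) (toR (p (N + 1))) (toR w') ''
      tri (toR (p 0)) (toR (p 1)) (toR w) →
    ∃ r ≤ 1, x = toR (p (N + r)) ∧ (e.1 = N + r ∨ e.2 = N + r) := by
  rintro e he - hx ⟨y, hy, rfl⟩
  obtain ⟨-, -, l, h1, h2, h3, h4⟩ := h.line e he
  obtain ⟨c1, c2, c3⟩ := h.tri_coord hy
  have h5 := affMap_fun (a' := toR (p N)) (b' := toR (p (N + 1))) (c' := toR w') h.pos_ne
    (l.1 : ℝ) (l.2.1 : ℝ) (l.2.2 : ℝ) y
  change evR l _ = _ * evR l _ + _ * evR l _ + _ * evR l _ at h5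
  rw [evR_toR, evR_toR, evR_toR] at h5
  have g1 : ((ev l (p N) : ℤ) : ℝ) ≤ 0 := by exact_mod_cast h1
  have g2 : ((ev l (p (N + 1)) : ℤ) : ℝ) ≤ 0 := by exact_mod_cast h2
  have g3 : ((ev l w' : ℤ) : ℝ) ≤ 0 := by exact_mod_cast h3
  have h6 := mul_nonpos_of_nonneg_of_nonpos c1 g1
  have h7 := mul_nonpos_of_nonneg_of_nonpos c2 g2
  have h8 := mul_nonpos_of_nonneg_of_nonpos c3 g3
  obtain ⟨s, s0, s1, s2, s3, s4⟩ := evR_seg l hx
  rw [evR_toR, evR_toR] at s2
  rw [s2] at h5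
  simp only [okLine, Bool.or_eq_true, Bool.and_eq_true, decide_eq_true_eq] at h4
  rcases h4 with (⟨k1, k2⟩ | ⟨⟨k1, k2⟩, k3⟩) | ⟨⟨k1, k2⟩, k3⟩
  · exfalso
    have k1' : (0 : ℝ) < ((ev l (p e.1) : ℤ) : ℝ) := by exact_mod_cast k1
    have k2' : (0 : ℝ) < ((ev l (p e.2) : ℤ) : ℝ) := by exact_mod_cast k2
    have k3 : 0 < (1 - s) * ((ev l (p e.1) : ℤ) : ℝ) + s * ((ev l (p e.2) : ℤ) : ℝ) := by
      rcases eq_or_lt_of_le s0 with k4 | k4
      · rw [← k4]
        linarith
      · have := mul_pos k4 k2'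
        have := mul_nonneg (sub_nonneg.2 s1) k1'.le
        linarith
    linarith
  · have k2' : (0 : ℝ) < ((ev l (p e.2) : ℤ) : ℝ) := by exact_mod_cast k2
    rw [k1] at h5
    push_cast at h5
    have k4 : s = 0 := by
      by_contra k5
      have := mul_pos (lt_of_le_of_ne s0 (Ne.symm k5)) k2'
      linarith
    rcases k3 with k3 | k3
    · have k5 := Nat.eq_of_beq_eq_true k3
      exact ⟨0, by omega, by rw [s3 k4, k5]; rfl, Or.inl k5⟩
    · have k5 := Nat.eq_of_beq_eq_true k3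
      exact ⟨1, by omega, by rw [s3 k4, k5], Or.inl k5⟩
  · have k2' : (0 : ℝ) < ((ev l (p e.1) : ℤ) : ℝ) := by exact_mod_cast k2
    rw [k1] at h5
    push_cast at h5
    have k4 : s = 1 := by
      by_contra k5
      have := mul_pos (sub_pos.2 (lt_of_le_of_ne s1 k5)) k2'
      linarith
    rcases k3 with k3 | k3
    · have k5 := Nat.eq_of_beq_eq_true k3
      exact ⟨0, by omega, by rw [s4 k4, k5]; rfl, Or.inr k5⟩
    · have k5 := Nat.eq_of_beq_eq_true k3
      exact ⟨1, by omega, by rw [s4 k4, k5], Or.inr k5⟩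

theorem Checks.mapTri {x : ℝ × ℝ} (hx : x ∈ tri (toR (p 0)) (toR (p 1)) (toR w)) :
    affMap (toR (p 0)) (toR (p 1)) (toR w) (toR (p N)) (toR (p (N + 1))) (toR w') x ∈
      tri (toR (p 0)) (toR (p 1)) (toR w) := by
  obtain ⟨c1, c2, c3⟩ := h.tri_coord hx
  obtain ⟨a1, a2, a3⟩ := inTri_mem (h.mem N (by omega))
  obtain ⟨b1, b2, b3⟩ := inTri_mem (h.mem (N + 1) le_rfl)
  obtain ⟨d1, d2, d3⟩ := inTri_mem h.mem'
  refine ⟨?_, ?_, ?_⟩
  · rw [affMap_orient h.pos_ne]
    positivity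
  · rw [affMap_orient h.pos_ne]
    positivity
  · rw [affMap_orient h.pos_ne]
    positivity

/-- the nested drawing -/
noncomputable def Checks.nest : Nest N E where
  p j := toR (p j)
  A := affMap (toR (p 0)) (toR (p 1)) (toR w) (toR (p N)) (toR (p (N + 1))) (toR w')
  D := tri (toR (p 0)) (toR (p 1)) (toR w)
  hN := h.hN
  hE := fun e he => ⟨(h.line e he).1, (h.line e he).2.1⟩
  injA := affMap_inj h.pos_ne (by
    rw [orient_toR]
    exact_mod_cast h.pos')
  h0 := affMap_a h.pos_ne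
  h1 := affMap_b h.pos_ne
  mapD := fun _ hx => h.mapTri hx
  conv := convex_tri _ _ _
  mem := fun j hj => inTri_mem (h.mem j hj)
  inj := fun i hi j hj hij => h.inj i hi j hj (toR_inj hij)
  vert := h.vert
  cross := h.cross
  deep := h.deep
  out := by
    intro j hj hx
    obtain ⟨e, he, hej⟩ := h.cov j (by omega)
    have hseg : toR (p j) ∈ segment ℝ (toR (p e.1)) (toR (p e.2)) := by
      rcases hej with rfl | rfl
      · exact left_mem_segment ℝ _ _
      · exact right_mem_segment ℝ _ _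
    obtain ⟨r, hr, h1, -⟩ := h.deep e he _ hseg hx
    have h2 := h.inj j (by omega) (N + r) (by omega) (toR_inj h1)
    omega

end build

end Pool.Agent.helper20.KP
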