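import Pool.Agent.helper20.KP.Tree
import Pool.Agent.helper20.KP.Geom

/-!
# Path vertex covers: the gadget for k = 4
-/

set_option autoImplicit false

namespace Pool.Agent.helper20.KP

/-- edges of the copy -/
def EB : List (ℕ × ℕ) := [
  (0, 2), (0, 9), (1, 2), (1, 9), (5, 15), (13, 15), (5, 16), (6, 16), (2, 7), (2, 14), (3, 9),
  (3, 10), (3, 11), (3, 14), (4, 5), (4, 6), (4, 10), (4, 11), (5, 8), (6, 13), (7, 9),
  (7, 10), (7, 12), (8, 10), (8, 12), (8, 13), (11, 12), (11, 13), (12, 14)]

/-- the paths used: vertex sets in base 2, vertex lists in base 32 -/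
def plB : List (ℕ × ℕ) := [
  (3336, 363848), (1800, 272489), (5384, 108812), (9480, 108813), (9536, 210186), (9488, 141581),
  (1320, 108805), (3344, 364872), (17672, 272494), (1360, 201032), (11520, 374026),
  (42240, 336303), (8528, 137640), (8496, 136461), (17432, 462148), (3096, 364867),
  (9600, 239885), (1328, 141573), (1080, 108677), (12608, 401830), (1112, 201027),
  (5392, 401732), (33840, 496778), (8544, 210181), (66608, 529546), (1200, 239749),
  (4400, 401572), (368, 200872), (10528, 172459), (21760, 471306), (1232, 239750),
  (74048, 530856), (14592, 404904), (10504, 275811), (5504, 239884), (2352, 267403),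
  (74016, 529677), (9296, 331981), (66640, 331984), (11280, 437386), (12672, 434567),
  (6416, 142728), (4992, 302472), (2584, 298340), (2104, 168291), (4512, 241925), (4484, 274658),
  (7184, 332140), (1560, 141417), (2136, 109702), (10288, 437381), (20768, 172430),
  (4744, 107756), (6192, 168300), (3216, 364871), (652, 72995), (6224, 201068), (18456, 142446),
  (28928, 434574), (5264, 400708), (20740, 274882), (6288, 142727), (6784, 372969),
  (34864, 364719), (1172, 73028), (21120, 302478), (10320, 142758), (6276, 372962),
  (67632, 529547), (6280, 109959), (45312, 505100), (20612, 80263), (7296, 372970),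
  (17032, 238702), (20744, 113032), (22544, 471396), (10512, 275812), (4737, 9452),
  (4738, 42220), (7424, 336267), (1920, 272617), (20616, 113031), (6432, 172427),
  (67664, 530571), (6408, 274787), (17544, 239726), (43024, 505188), (1440, 239877),
  (8304, 432261), (1672, 335139), (22536, 471395), (14464, 437639), (41008, 136685),
  (32880, 200879), (4230, 35052), (21000, 298444), (21512, 331212), (4229, 2284), (16908, 79977),
  (30720, 437646), (2696, 238699), (69920, 401584), (16906, 462113), (16905, 9326),
  (41040, 505028), (6664, 298348), (7176, 404586), (2569, 9323), (17028, 461033), (17420, 79978),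
  (22532, 80267), (525, 65827), (5256, 400707), (16524, 231875), (18444, 363970), (646, 42210),
  (66848, 336048), (26632, 437358), (20486, 35276), (1545, 331040), (16397, 112704),
  (645, 72992), (47104, 404911), (20485, 2508), (2570, 363809), (1665, 9450), (1666, 335137),
  (21632, 471274), (14400, 404902), (3208, 239723), (1412, 272610), (526, 66851), (1546, 42090),
  (10760, 298349), (11272, 331117), (10312, 210275), (1164, 73027), (65888, 213160),
  (106528, 441520), (98400, 213167), (73824, 432645), (106560, 505040), (16902, 296014),
  (17540, 461034), (16901, 460809)]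

/-- the potential -/
def gB : Bool → Bool → ℕ
  | false, false => 0
  | true, false => 0
  | false, true => 0
  | true, true => 1

/-- the points -/
def ptsB : List (ℤ × ℤ) := [
  (0, 0), (3000, 0), (1391, 1154), (1276, 801), (1307, 854), (1313, 866), (1311, 865),
  (1348, 905), (1317, 872), (1260, 485), (1311, 853), (1308, 863), (1324, 906), (1312, 868),
  (1301, 937), (1313, 867), (1312, 866)]

/-- separating lines -/
def lnB : List (ℤ × ℤ × ℤ) := [
  (-1154, 1391, 1), (-1, 0, 1312), (1154, 1609, -3461999), (1, -1, -446), (0, 1, -867),
  (6, -4, -4413), (-3, 1, 3069)]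

theorem goodB : good 15 EB = true := by decide +kernel

/-- the adjacency matrix -/
def amB : ℕ := 1287149586947749402343679996062446758145057910591843300700433769390507275337764378393604672235744391019795792807198492682915968394745468481211271523940172292

theorem okaB : okA 15 EB amB = true := by decide +kernel

theorem chkB : chkAll 15 amB 3 plB = true := by decide +kernel

theorem gokB : gOK 1 gB = true := by decide +kernel

theorem allB : run (bd 15 7 1 gB) 4 10 plB 0 0 = true := by decide +kernel

/-- the lists of vertices -/
def psB : List (List ℕ) := plB.map fun p => dec 4 p.2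

theorem okpB : okPaths 15 4 EB psB = true := okPaths_of (k := 3) okaB chkB

theorem hokB : ∀ m < 2 ^ (15 + 2), ok 15 7 1 gB psB m = true :=
  ok_of_run (k := 4) (n := 10) (pl := plB) (by norm_num) gokB allB

theorem geoB : checkGeom 15 EB (fun j => ptsB.getD j (0, 0)) (1500, 3000) (1312, 867) lnB = true := by
  decide +kernel

/-- the gadget -/
noncomputable def GB : Gadget 4 15 7 1 where
  E := EB
  pl := psB
  g := gB
  hk := by norm_num
  hN := by norm_num
  hd := by norm_num
  hgood := goodB
  hpl := okpB
  hok := hokB
  nest := (checks_of geoB).nest

theorem c2_4 : (7 / 15 : ℝ) ≤ c2 4 := by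
  have h := GB.c2_ge
  norm_num at h ⊢
  exact h

end Pool.Agent.helper20.KP
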