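import Pool.Agent.helper20.KP.Tree
import Pool.Agent.helper20.KP.Geom

/-!
# Path vertex covers: the gadget for k = 6
-/

set_option autoImplicit false

namespace Pool.Agent.helper20.KP

/-- edges of the copy -/
def EC : List (ℕ × ℕ) := [
  (0, 11), (0, 4), (0, 7), (1, 4), (1, 7), (5, 10), (8, 10), (5, 11), (8, 11), (2, 3), (2, 4),
  (2, 6), (3, 8), (3, 9), (4, 8), (5, 7), (5, 9), (6, 7), (6, 9)]

/-- the paths used: vertex sets in base 2, vertex lists in base 32 -/
def plC : List (ℕ × ℕ) := [
  (2620, 374639684), (700, 240421956), (2668, 102966443), (573, 4263205), (2676, 136520875),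
  (828, 71568677), (189, 175116355), (605, 210864256), (2661, 73700704), (2613, 71314601),
  (2860, 70528169), (2916, 73700712), (860, 210870402), (669, 305205255), (748, 70554854),
  (413, 70520839), (825, 4459813), (732, 136422599), (221, 208670787), (2868, 307601538),
  (697, 134452515), (476, 109185223), (2589, 369231977), (952, 142714023), (2284, 374577219),
  (2844, 377620585), (2229, 71314599), (245, 4266213), (2333, 11799620), (2792, 110304427),
  (2109, 179310659), (349, 203530368), (2261, 136518667), (492, 271653093), (876, 177408104),
  (2872, 142972195), (753, 210934788), (741, 73700576), (2476, 70528167), (756, 240425028),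
  (729, 110304260), (2761, 369334563), (2364, 179572803), (693, 307462274), (2165, 203555173),
  (469, 272701664), (884, 272701733), (2389, 11800646), (984, 142714055), (2900, 377620681),
  (2453, 235249794), (921, 305401863), (2292, 374577220), (2984, 377595047), (2617, 134583587),
  (1000, 175318120), (945, 272637097), (717, 7545954), (2865, 4467881), (2928, 142972198),
  (2729, 235246883), (2277, 11705538), (3016, 377595079), (2892, 73698571), (2289, 208841732),
  (2920, 109417766), (2544, 142972134), (2953, 305409031), (2412, 179571782), (3040, 280143047),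
  (2977, 279977129), (2481, 240492672), (857, 4459814), (977, 272637129), (2473, 7515395),
  (2361, 179310851), (2253, 102964235), (937, 271881440), (441, 175116547), (473, 109183206),
  (2501, 73630056)]

/-- the potential -/
def gC : Bool → Bool → ℕ
  | false, false => 0
  | true, false => 1
  | false, true => 0
  | true, true => 1

/-- the points -/
def ptsC : List (ℤ × ℤ) := [
  (0, 0), (100, 0), (31, 10), (30, 8), (30, 14), (28, 5), (37, 5), (39, 3), (24, 7), (32, 6),
  (25, 5), (18, 4)]

/-- separating lines -/
def lnC : List (ℤ × ℤ × ℤ) := [
  (1, -7, 10), (-14, 30, 1), (14, 70, -1399), (0, 2, -10), (-1, 5, -2), (5, 6, -214),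
  (1, -4, -7)]

theorem goodC : good 10 EC = true := by decide +kernel

/-- the adjacency matrix -/
def amC : ℕ := 2651284400699686933819052675644088874003219866046847385299400049456065860669888422543012972634403688241170576

theorem okaC : okA 10 EC amC = true := by decide +kernel

theorem chkC : chkAll 10 amC 5 plC = true := by decide +kernel

theorem gokC : gOK 1 gC = true := by decide +kernel

theorem allC : run (bd 10 4 1 gC) 6 5 plC 0 0 = true := by decide +kernel

/-- the lists of vertices -/
def psC : List (List ℕ) := plC.map fun p => dec 6 p.2

theorem okpC : okPaths 10 6 EC psC = true := okPaths_of (k := 5) okaC chkC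

theorem hokC : ∀ m < 2 ^ (10 + 2), ok 10 4 1 gC psC m = true :=
  ok_of_run (k := 6) (n := 5) (pl := plC) (by norm_num) gokC allC

theorem geoC : checkGeom 10 EC (fun j => ptsC.getD j (0, 0)) (50, 100) (23, 5) lnC = true := by
  decide +kernel

/-- the gadget -/
noncomputable def GC : Gadget 6 10 4 1 where
  E := EC
  pl := psC
  g := gC
  hk := by norm_num
  hN := by norm_num
  hd := by norm_num
  hgood := goodC
  hpl := okpC
  hok := hokC
  nest := (checks_of geoC).nest

theorem c2_6 : (2 / 5 : ℝ) ≤ c2 6 := by
  have h := GC.c2_ge
  norm_num at h ⊢
  exact h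

end Pool.Agent.helper20.KP
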