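import Pool.Agent.helper20.KP.Tree
import Pool.Agent.helper20.KP.Geom

/-!
# Path vertex covers: the gadget for k = 5
-/

set_option autoImplicit false

namespace Pool.Agent.helper20.KP

/-- edges of the copy -/
def ED : List (ℕ × ℕ) := [
  (0, 7), (0, 9), (1, 2), (1, 7), (1, 9), (4, 12), (8, 12), (4, 13), (8, 13), (2, 6), (2, 10),
  (3, 4), (3, 7), (3, 8), (3, 9), (4, 6), (4, 11), (5, 6), (5, 10), (5, 11), (6, 7), (8, 10),
  (8, 11), (9, 10)]

/-- the paths used: vertex sets in base 2, vertex lists in base 32 -/
def plD : List (ℕ × ℕ) := [
  (1730, 6522154), (1922, 8725543), (1606, 6367521), (1698, 7382341), (1574, 5579810),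
  (1418, 1281290), (1798, 2139464), (1802, 3418401), (1729, 6521130), (1414, 7375176),
  (1670, 2434087), (1674, 1281322), (1921, 7349576), (1543, 10552608), (1673, 10783968),
  (1736, 6524202), (1704, 5579879), (1928, 7446857), (590, 6358307), (654, 2139239),
  (1801, 3418400), (666, 4301863), (728, 9542852), (542, 2139236), (906, 8496167),
  (1676, 7447874), (1190, 7375173), (3842, 11807009), (1816, 4301129), (1634, 1353894),
  (3841, 305419), (1420, 7446850), (722, 9477316), (1633, 305318), (1294, 1124611),
  (1669, 7349570), (1832, 9544005), (3618, 11708705), (1605, 305222), (1624, 6425898),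
  (1308, 2433124), (598, 9472196), (602, 6425889), (2586, 1346699), (3334, 1124619),
  (604, 2297961), (1126, 6465601), (3617, 11708704), (651, 296163), (1804, 2433129),
  (632, 5443689), (1620, 9767108), (1612, 6367523), (2840, 4563049), (1448, 7446853),
  (1564, 2434148), (1648, 4396361), (1356, 6367491), (3110, 1124523), (1336, 5578852),
  (1364, 8718532), (1480, 6524170), (1368, 10751110), (583, 6358304), (1166, 10552547),
  (707, 6522144), (1636, 2299209), (744, 9542853), (2456, 4563047), (716, 2301033),
  (1380, 2299208), (3408, 10759302), (3856, 9773412), (10000, 4628809), (1760, 9770183),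
  (8984, 9544100), (3872, 5611849), (1252, 7542082), (782, 8496162), (2826, 11799841),
  (2856, 5611625), (2504, 11799782), (3172, 6367403), (4888, 9544068), (1392, 8721604),
  (2616, 9539941), (2472, 5611623), (3348, 4563266), (1159, 10552544), (1228, 3381322),
  (8585, 13896928), (1144, 3283114), (1256, 3381418), (4489, 12848352), (2392, 6434051),
  (1732, 7539017), (3368, 11708675), (488, 8494277), (3632, 4560201), (218, 6425825),
  (2360, 4301157), (348, 8491202), (2408, 6466819), (3124, 4560194), (248, 5446756),
  (3184, 6433962), (1116, 3283018), (5904, 4596041), (214, 4398114), (3376, 5579108),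
  (1504, 8721607), (158, 2137188), (2258, 1284235), (94, 3283009), (3128, 10660995),
  (2512, 7541096), (2134, 1120395), (2388, 2298216), (4560, 8786119), (2416, 8754372),
  (2288, 4560071), (8656, 8818887), (206, 3381313), (199, 6358240), (6448, 4596069),
  (737, 9444549), (10544, 5611940), (647, 2139143), (2404, 2299240)]

/-- the potential -/
def gD : Bool → Bool → ℕ
  | false, false => 0
  | true, false => 1
  | false, true => 1
  | true, true => 1

/-- the points -/
def ptsD : List (ℤ × ℤ) := [
  (0, 0), (400, 0), (293, 41), (209, 44), (227, 42), (235, 45), (237, 37), (190, 15),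
  (229, 49), (239, 125), (238, 57), (231, 46), (228, 45), (227, 46)]

/-- separating lines -/
def lnD : List (ℤ × ℤ × ℤ) := [
  (-1, 1, 181), (2, 0, -456), (-15, -210, 6001), (-1, -1, 273), (-5, -10, 1556), (4, -4, -739)]

theorem goodD : good 12 ED = true := by decide +kernel

/-- the adjacency matrix -/
def amD : ℕ := 46030649229519936130427959393439072488084437305547076116596127247301128787180365591851633483838897785107550771104317310815437440

theorem okaD : okA 12 ED amD = true := by decide +kernel

theorem chkD : chkAll 12 amD 4 plD = true := by decide +kernel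

theorem gokD : gOK 1 gD = true := by decide +kernel

theorem allD : run (bd 12 5 1 gD) 5 8 plD 0 0 = true := by decide +kernel

/-- the lists of vertices -/
def psD : List (List ℕ) := plD.map fun p => dec 5 p.2

theorem okpD : okPaths 12 5 ED psD = true := okPaths_of (k := 4) okaD chkD

theorem hokD : ∀ m < 2 ^ (12 + 2), ok 12 5 1 gD psD m = true :=
  ok_of_run (k := 5) (n := 8) (pl := plD) (by norm_num) gokD allD

theorem geoD : checkGeom 12 ED (fun j => ptsD.getD j (0, 0)) (200, 400) (228, 47) lnD = true := by
  decide +kernel

/-- the gadget -/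
noncomputable def GD : Gadget 5 12 5 1 where
  E := ED
  pl := psD
  g := gD
  hk := by norm_num
  hN := by norm_num
  hd := by norm_num
  hgood := goodD
  hpl := okpD
  hok := hokD
  nest := (checks_of geoD).nest

theorem c2_5 : (5 / 12 : ℝ) ≤ c2 5 := by
  have h := GD.c2_ge
  norm_num at h ⊢
  exact h

end Pool.Agent.helper20.KP
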