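import Pool.Agent.helper20.KP.Defs

/-!
# Path vertex covers of chains: triangles, counting, and the limit
-/

set_option autoImplicit false

open Set Filter

namespace Pool.Agent.helper20.KP

/-! ### triangles -/

/-- adjacency in one copy -/
def adjE (E : List (ℕ × ℕ)) (a b : ℕ) : Bool := E.contains (a, b) || E.contains (b, a)

theorem adjE_iff {E : List (ℕ × ℕ)} {a b : ℕ} :
    adjE E a b = true ↔ (a, b) ∈ E ∨ (b, a) ∈ E := by
  simp [adjE]

/-- the finite conditions on the edge list -/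
def good (N : ℕ) (E : List (ℕ × ℕ)) : Bool :=
  (E.all fun e => Nat.ble e.1 (N + 1) && Nat.ble e.2 (N + 1) && !(Nat.beq e.1 e.2) &&
    (List.range (N + 2)).all fun c => !(adjE E e.1 c && adjE E e.2 c)) &&
  !(adjE E 0 1) && !(adjE E N (N + 1))

theorem good_edge {N : ℕ} {E : List (ℕ × ℕ)} (h : good N E = true) {e : ℕ × ℕ} (he : e ∈ E) :
    e.1 ≤ N + 1 ∧ e.2 ≤ N + 1 ∧ e.1 ≠ e.2 ∧
      ∀ c ≤ N + 1, ¬ (adjE E e.1 c = true ∧ adjE E e.2 c = true) := by
  simp only [good, Bool.and_eq_true, List.all_eq_true] at h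
  obtain ⟨⟨h1, -⟩, -⟩ := h
  obtain ⟨⟨⟨h2, h3⟩, h4⟩, h5⟩ := h1 e he
  refine ⟨Nat.le_of_ble_eq_true h2, Nat.le_of_ble_eq_true h3, ?_, ?_⟩
  · intro h6
    rw [h6] at h4
    simp at h4
  · rintro c hc ⟨h6, h7⟩
    have h8 := h5 c (List.mem_range.2 (by omega))
    rw [h6, h7] at h8
    simp at h8

theorem good_end {N : ℕ} {E : List (ℕ × ℕ)} (h : good N E = true) :
    ¬ adjE E 0 1 = true ∧ ¬ adjE E N (N + 1) = true := by
  simp only [good, Bool.and_eq_true] at h
  obtain ⟨⟨-, h1⟩, h2⟩ := h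
  constructor
  · intro h3
    rw [h3] at h1
    simp at h1
  · intro h3
    rw [h3] at h2
    simp at h2

theorem adjE_comm {E : List (ℕ × ℕ)} {a b : ℕ} : adjE E a b = true ↔ adjE E b a = true := by
  rw [adjE_iff, adjE_iff]
  exact or_comm

/-- an edge in copy `i` -/
structure At (N : ℕ) (E : List (ℕ × ℕ)) (i u v : ℕ) : Prop where
  u1 : N * i ≤ u
  u2 : u ≤ N * i + N + 1
  v1 : N * i ≤ v
  v2 : v ≤ N * i + N + 1
  ne : u ≠ v
  adj : adjE E (u - N * i) (v - N * i) = true

theorem At.symm {N : ℕ} {E : List (ℕ × ℕ)} {i u v : ℕ} (h : At N E i u v) : At N E i v u :=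
  ⟨h.v1, h.v2, h.u1, h.u2, h.ne.symm, adjE_comm.1 h.adj⟩

theorem exists_at {N : ℕ} {E : List (ℕ × ℕ)} (hg : good N E = true) {u v : ℕ}
    (h : (chain N E).Adj u v) : ∃ i, At N E i u v := by
  have hne := h.ne
  obtain ⟨i, e, he, h1⟩ := chain_adj h
  obtain ⟨h2, h3, h4, -⟩ := good_edge hg he
  have key : At N E i (N * i + e.1) (N * i + e.2) :=
    ⟨by omega, by omega, by omega, by omega, by omega, by
      rw [Nat.add_sub_cancel_left, Nat.add_sub_cancel_left, adjE_iff]
      exact Or.inl he⟩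
  rcases h1 with ⟨rfl, rfl⟩ | ⟨rfl, rfl⟩
  · exact ⟨i, key⟩
  · exact ⟨i, key.symm⟩

theorem At.unique {N : ℕ} {E : List (ℕ × ℕ)} (hg : good N E = true) {i i' u v : ℕ}
    (h : At N E i u v) (h1 : N * i' ≤ u) (h2 : u ≤ N * i' + N + 1) (h3 : N * i' ≤ v)
    (h4 : v ≤ N * i' + N + 1) : i = i' := by
  obtain ⟨g1, g2⟩ := good_end hg
  have hu1 := h.u1
  have hu2 := h.u2
  have hv1 := h.v1
  have hv2 := h.v2
  have hne := h.ne
  rcases lt_trichotomy i i' with hlt | heq | hgt
  · exfalso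
    have h5 : N * (i + 1) ≤ N * i' := Nat.mul_le_mul_left N hlt
    rw [Nat.mul_add, Nat.mul_one] at h5
    have h6 : (u - N * i = N ∧ v - N * i = N + 1) ∨ (v - N * i = N ∧ u - N * i = N + 1) := by
      omega
    rcases h6 with ⟨h7, h8⟩ | ⟨h7, h8⟩
    · exact g2 (by rw [← h7]; nth_rw 2 [h7]; rw [← h8]; exact h.adj)
    · exact g2 (by rw [← h7]; nth_rw 2 [h7]; rw [← h8]; exact h.symm.adj)
  · exact heq
  · exfalso
    have h5 : N * (i' + 1) ≤ N * i := Nat.mul_le_mul_left N hgt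
    rw [Nat.mul_add, Nat.mul_one] at h5
    have h6 : (u - N * i = 0 ∧ v - N * i = 1) ∨ (v - N * i = 0 ∧ u - N * i = 1) := by
      omega
    rcases h6 with ⟨h7, h8⟩ | ⟨h7, h8⟩
    · exact g1 (by rw [← h7, ← h8]; exact h.adj)
    · exact g1 (by rw [← h7, ← h8]; exact h.symm.adj)

theorem level_near {N : ℕ} (hN : 2 ≤ N) {i i' u : ℕ} (h1 : N * i ≤ u)
    (h4 : u ≤ N * i' + N + 1) : i ≤ i' + 1 := by
  by_contra h5
  have h6 : N * (i' + 2) ≤ N * i := Nat.mul_le_mul_left N (by omega)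
  rw [Nat.mul_add] at h6
  omega

theorem chain_triangle {N : ℕ} {E : List (ℕ × ℕ)} (hN : 2 ≤ N) (hg : good N E = true)
    {u v w : ℕ} (h1 : (chain N E).Adj u v) (h2 : (chain N E).Adj u w)
    (h3 : (chain N E).Adj v w) : False := by
  obtain ⟨i1, a1⟩ := exists_at hg h1
  obtain ⟨i2, a2⟩ := exists_at hg h2
  obtain ⟨i3, a3⟩ := exists_at hg h3
  have same : i1 = i2 → i2 = i3 → False := by
    rintro rfl rfl
    have h4 := a1.adj
    have h5 := a2.adj
    have h6 := a3.adj
    have hw1 := a2.v1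
    have hw2 := a2.v2
    rcases adjE_iff.1 h4 with h7 | h7
    · exact (good_edge hg h7).2.2.2 _ (show w - N * i1 ≤ N + 1 by omega) ⟨h5, h6⟩
    · exact (good_edge hg h7).2.2.2 _ (show w - N * i1 ≤ N + 1 by omega) ⟨h6, h5⟩
  by_cases h12 : i1 = i2
  · have := a3.unique hg (i' := i1) a1.v1 a1.v2 (by rw [h12]; exact a2.v1)
      (by rw [h12]; exact a2.v2)
    exact same h12 (by omega)
  by_cases h13 : i1 = i3
  · have := a2.unique hg (i' := i1) a1.u1 a1.u2 (by rw [h13]; exact a3.v1)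
      (by rw [h13]; exact a3.v2)
    omega
  by_cases h23 : i2 = i3
  · have := a1.unique hg (i' := i2) a2.u1 a2.u2 (by rw [h23]; exact a3.u1)
      (by rw [h23]; exact a3.u2)
    omega
  have e1 := level_near hN a1.u1 a2.u2
  have e2 := level_near hN a2.u1 a1.u2
  have e3 := level_near hN a1.v1 a3.u2
  have e4 := level_near hN a3.u1 a1.v2
  have e5 := level_near hN a2.v1 a3.v2
  have e6 := level_near hN a3.v1 a2.v2
  omega

theorem piece_cliqueFree {N : ℕ} {E : List (ℕ × ℕ)} (hN : 2 ≤ N) (hg : good N E = true) (n : ℕ) :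
    (piece N E n).CliqueFree 3 := by
  intro s hs
  rw [SimpleGraph.is3Clique_iff] at hs
  obtain ⟨a, b, c, h1, h2, h3, -⟩ := hs
  exact chain_triangle hN hg (u := a.1) (v := b.1) (w := c.1) h1 h2 h3

/-! ### counting -/

/-- the number of chosen vertices among `2, …, N + 1` -/
def cnt : ℕ → ℕ → ℕ
  | 0, _ => 0
  | n + 1, m => cnt n m + (m.testBit (n + 2)).toNat

theorem cnt_eq (n m : ℕ) : cnt n m = ∑ j ∈ Finset.range n, (m.testBit (j + 2)).toNat := by
  induction n with
  | zero => rfl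
  | succ n ih => rw [Finset.sum_range_succ, ← ih, cnt]

/-- the inequality for one set of chosen vertices -/
def ok (N q d : ℕ) (g : Bool → Bool → ℕ) (pl : List (List ℕ)) (m : ℕ) : Bool :=
  Nat.ble (q + g (m.testBit N) (m.testBit (N + 1)))
    (d * cnt N m + g (m.testBit 0) (m.testBit 1)) ||
    !(pl.all fun p => p.any fun j => m.testBit j)

/-- the paths are paths of the copy -/
def okPaths (N k : ℕ) (E : List (ℕ × ℕ)) (pl : List (List ℕ)) : Bool :=
  pl.all fun p => decide (p.length = k) && decide p.Nodup &&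
    decide (p.IsChain fun a b => adjE E a b = true) && p.all fun j => Nat.ble j (N + 1)

theorem count_chain {N q d : ℕ} {g : Bool → Bool → ℕ} {pl : List (List ℕ)}
    (hok : ∀ m < 2 ^ (N + 2), ok N q d g pl m = true) (hpl : ∀ p ∈ pl, ∀ j ∈ p, j < N + 2)
    (b : ℕ → Bool) (J : ℕ) (hb : ∀ i < J, ∀ p ∈ pl, ∃ j ∈ p, b (N * i + j) = true) :
    q * J + g (b (N * J)) (b (N * J + 1)) ≤
      d * ∑ x ∈ Finset.range (N * J), (b (x + 2)).toNat + g (b 0) (b 1) := by
  induction J with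
  | zero => simp
  | succ J ih =>
    have ih := ih fun i hi => hb i (by omega)
    set m := Nat.ofBits fun j : Fin (N + 2) => b (N * J + j.1) with hm
    have hbit : ∀ j < N + 2, m.testBit j = b (N * J + j) := fun j hj => by
      rw [hm, Nat.testBit_ofBits_lt _ _ hj]
    have h1 := hok m (Nat.ofBits_lt_two_pow _)
    have h2 : (pl.all fun p => p.any fun j => m.testBit j) = true := by
      rw [List.all_eq_true]
      intro p hp
      rw [List.any_eq_true]
      obtain ⟨j, hj, hj2⟩ := hb J (by omega) p hp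
      exact ⟨j, hj, by rw [hbit j (hpl p hp j hj)]; exact hj2⟩
    rw [ok, h2, Bool.not_true, Bool.or_false, hbit N (by omega), hbit (N + 1) (by omega),
      hbit 0 (by omega), hbit 1 (by omega), cnt_eq] at h1
    have h3 := Nat.le_of_ble_eq_true h1
    have h4 : ∑ j ∈ Finset.range N, (m.testBit (j + 2)).toNat =
        ∑ j ∈ Finset.range N, (b (N * J + j + 2)).toNat := by
      refine Finset.sum_congr rfl fun j hj => ?_
      rw [hbit (j + 2) (by have := Finset.mem_range.1 hj; omega)]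
      rfl
    rw [h4] at h3
    have h5 : N * (J + 1) = N * J + N := by ring
    rw [h5, Finset.sum_range_add, Nat.mul_add, Nat.mul_one, Nat.mul_add]
    simp only [Nat.add_zero] at h3
    have h6 : N * J + N + 1 = N * J + (N + 1) := by ring
    rw [h6]
    omega

theorem cover_list {N k n : ℕ} {E : List (ℕ × ℕ)} {S : Finset (Fin n)}
    (hS : IsCover k (piece N E n) S) (l : List ℕ) (hl : ∀ x ∈ l, x < n) (hk : l.length = k)
    (hnd : l.Nodup) (hc : l.IsChain (chain N E).Adj) :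
    ∃ x ∈ l, ∃ h : x < n, (⟨x, h⟩ : Fin n) ∈ S := by
  have hmap : (l.pmap Fin.mk hl).map Fin.val = l := by
    rw [List.map_pmap]
    simp
  obtain ⟨v, hv, hvS⟩ := hS (l.pmap Fin.mk hl) (by rw [List.length_pmap]; exact hk)
    (List.Nodup.of_map Fin.val (by rw [hmap]; exact hnd)) (by
      have h1 : ((l.pmap Fin.mk hl).map Fin.val).IsChain (chain N E).Adj := by rw [hmap]; exact hc
      exact (List.isChain_map Fin.val).1 h1)
  refine ⟨v.1, ?_, v.2, hvS⟩
  rw [← hmap]
  exact List.mem_map.2 ⟨v, hv, rfl⟩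

theorem cover_card {N k q d : ℕ} {E : List (ℕ × ℕ)} {g : Bool → Bool → ℕ} {pl : List (List ℕ)}
    (hok : ∀ m < 2 ^ (N + 2), ok N q d g pl m = true) (hpl : okPaths N k E pl = true)
    (hg : good N E = true) {C : ℕ} (hC : ∀ a b, g a b ≤ C) {n : ℕ} {S : Finset (Fin n)}
    (hS : IsCover k (piece N E n) S) (J : ℕ) (hJ : N * J + 2 ≤ n) : q * J ≤ d * S.card + C := by
  classical
  let b : ℕ → Bool := fun x => decide (∃ h : x < n, (⟨x, h⟩ : Fin n) ∈ S)
  have hpl2 : ∀ p ∈ pl, p.length = k ∧ p.Nodup ∧ (p.IsChain fun a b => adjE E a b = true) ∧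
      ∀ j ∈ p, j ≤ N + 1 := by
    intro p hp
    rw [okPaths, List.all_eq_true] at hpl
    have h1 := hpl p hp
    simp only [Bool.and_eq_true, decide_eq_true_eq, List.all_eq_true] at h1
    obtain ⟨⟨⟨h2, h3⟩, h4⟩, h5⟩ := h1
    exact ⟨h2, h3, h4, fun j hj => Nat.le_of_ble_eq_true (h5 j hj)⟩
  have hb : ∀ i < J, ∀ p ∈ pl, ∃ j ∈ p, b (N * i + j) = true := by
    intro i hi p hp
    obtain ⟨h2, h3, h4, h5⟩ := hpl2 p hp
    have hlt : ∀ x ∈ p.map fun j => N * i + j, x < n := by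
      intro x hx
      obtain ⟨j, hj, rfl⟩ := List.mem_map.1 hx
      have h6 := h5 j hj
      have h7 : N * (i + 1) ≤ N * J := Nat.mul_le_mul_left N hi
      rw [Nat.mul_add, Nat.mul_one] at h7
      show N * i + j < n
      omega
    obtain ⟨x, hx, hxn, hxS⟩ := cover_list hS (p.map fun j => N * i + j) hlt
      (by rw [List.length_map]; exact h2)
      (h3.map fun a b h => by simpa using h)
      (List.isChain_map_of_isChain _ (fun a c hac => by
        rw [adjE_iff] at hac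
        refine adj_chain i ?_ hac
        rcases hac with h6 | h6
        · exact (good_edge hg h6).2.2.1
        · exact (good_edge hg h6).2.2.1.symm) h4)
    obtain ⟨j, hj, rfl⟩ := List.mem_map.1 hx
    exact ⟨j, hj, decide_eq_true ⟨hxn, hxS⟩⟩
  have h1 := count_chain hok (fun p hp j hj => by have := (hpl2 p hp).2.2.2 j hj; omega) b J hb
  have h2 : ∑ x ∈ Finset.range (N * J), (b (x + 2)).toNat ≤ S.card := by
    have h3 : ∑ x ∈ Finset.range (N * J), (b (x + 2)).toNat =
        ((Finset.range (N * J)).filter fun x => b (x + 2) = true).card := by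
      rw [Finset.card_filter]
      refine Finset.sum_congr rfl fun x _ => ?_
      cases b (x + 2) <;> simp
    rw [h3, ← Finset.card_map Fin.valEmbedding (s := S),
      ← Finset.card_image_of_injective (f := fun x => x + 2)
        ((Finset.range (N * J)).filter fun x => b (x + 2) = true) (fun a c h => by simpa using h)]
    refine Finset.card_le_card fun y hy => ?_
    obtain ⟨x, hx, rfl⟩ := Finset.mem_image.1 hy
    obtain ⟨h4, h5⟩ := of_decide_eq_true (Finset.mem_filter.1 hx).2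
    exact Finset.mem_map.2 ⟨⟨x + 2, h4⟩, h5, rfl⟩
  have h3 := hC (b 0) (b 1)
  have h4 := Nat.mul_le_mul_left d h2
  omega

/-! ### the covering number and the limit -/

theorem cover_univ {V : Type*} [Fintype V] {k : ℕ} (hk : 1 ≤ k) (G : SimpleGraph V) :
    IsCover k G Finset.univ := by
  intro l hl _ _
  have h1 : l ≠ [] := by
    rintro rfl
    simp at hl
    omega
  exact ⟨l.head h1, List.head_mem h1, Finset.mem_univ _⟩

theorem psi_le {V : Type*} [Fintype V] {k : ℕ} (hk : 1 ≤ k) (G : SimpleGraph V) :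
    psi k G ≤ Fintype.card V :=
  Nat.sInf_le ⟨Finset.univ, cover_univ hk G, Finset.card_univ⟩

theorem le_psi {V : Type*} [Fintype V] {k c : ℕ} (hk : 1 ≤ k) (G : SimpleGraph V)
    (h : ∀ S : Finset V, IsCover k G S → c ≤ S.card) : c ≤ psi k G := by
  obtain ⟨S, hS, hc⟩ := Nat.sInf_mem (s := {m | ∃ S : Finset V, IsCover k G S ∧ S.card = m})
    ⟨_, Finset.univ, cover_univ hk G, rfl⟩
  rw [psi, ← hc]
  exact h S hS

theorem fmax_bdd {k : ℕ} (hk : 1 ≤ k) (n : ℕ) :
    BddAbove {m | ∃ G : SimpleGraph (Fin n), Planar G ∧ G.CliqueFree 3 ∧ psi k G = m} := by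
  refine ⟨n, ?_⟩
  rintro m ⟨G, -, -, rfl⟩
  simpa using psi_le hk G

theorem fmax_le {k : ℕ} (hk : 1 ≤ k) (n : ℕ) : fmax k n ≤ n := by
  rw [fmax]
  rcases Set.eq_empty_or_nonempty
    {m | ∃ G : SimpleGraph (Fin n), Planar G ∧ G.CliqueFree 3 ∧ psi k G = m} with h | h
  · rw [h]
    simp
  · refine csSup_le h ?_
    rintro m ⟨G, -, -, rfl⟩
    simpa using psi_le hk G

theorem le_c2 {k : ℕ} (hk : 1 ≤ k) {N q d C : ℕ} (hN : 2 ≤ N) (hd0 : 1 ≤ d)
    (h : ∀ n J, N * J + 2 ≤ n → q * J ≤ d * fmax k n + C) : (q / (d * N) : ℝ) ≤ c2 k := by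
  have hd1 : (0 : ℝ) < d := by exact_mod_cast hd0
  have hN0 : (0 : ℝ) < N := by
    have : 0 < N := by omega
    exact_mod_cast this
  have hbdd : IsBoundedUnder (· ≤ ·) atTop fun n : ℕ => (fmax k n : ℝ) / n := by
    refine ⟨1, ?_⟩
    rw [eventually_map]
    refine Eventually.of_forall fun n => ?_
    rcases Nat.eq_zero_or_pos n with h0 | h0
    · subst h0
      simp
    · rw [div_le_one (by exact_mod_cast h0)]
      exact_mod_cast fmax_le hk n
  refine le_of_forall_lt fun c hc => ?_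
  obtain ⟨c', hc1, hc2⟩ := exists_between hc
  refine lt_of_lt_of_le hc1 (le_limsup_of_frequently_le ?_ hbdd)
  refine Eventually.frequently ?_
  have hd : 0 < (q / N : ℝ) - d * c' := by
    have h0 : (q / N : ℝ) = d * (q / (d * N)) := by field_simp
    rw [h0, ← mul_sub]
    exact mul_pos hd1 (by linarith)
  obtain ⟨n0, hn0⟩ := exists_nat_gt (((q : ℝ) * (2 / N + 1) + C) / ((q / N : ℝ) - d * c'))
  refine eventually_atTop.2 ⟨max n0 2, fun n hn => ?_⟩
  have hn1 : n0 ≤ n := (le_max_left _ _).trans hn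
  have hn2 : 2 ≤ n := (le_max_right _ _).trans hn
  have hnpos : (0 : ℝ) < n := by
    have : 0 < n := by omega
    exact_mod_cast this
  rw [le_div_iff₀ hnpos]
  set J := (n - 2) / N with hJ
  have hJ1 : N * J + 2 ≤ n := by
    have h8 := Nat.mul_div_le (n - 2) N
    rw [← hJ] at h8
    omega
  have hJ2 : n - 2 < N * (J + 1) := by
    have := Nat.lt_mul_div_succ (n - 2) (show 0 < N by omega)
    exact this
  have h1 := h n J hJ1
  have h2 : (q : ℝ) * J ≤ d * fmax k n + C := by exact_mod_cast h1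
  have h3 : (n : ℝ) < N * (J + 1) + 2 := by
    have h4 : n < N * (J + 1) + 2 := by omega
    exact_mod_cast h4
  have h4 : (n : ℝ) / N - 2 / N - 1 < J := by
    have h5 : (n : ℝ) / N < (N * (J + 1) + 2) / N := by gcongr
    have h6 : ((N : ℝ) * (J + 1) + 2) / N = J + 1 + 2 / N := by field_simp
    rw [h6] at h5
    linarith
  have h5 : (q : ℝ) * (n / N - 2 / N - 1) ≤ q * J := by
    refine mul_le_mul_of_nonneg_left h4.le (by positivity)
  have h6 : ((q : ℝ) * (2 / N + 1) + C) < ((q / N : ℝ) - d * c') * n := by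
    have h7 : ((q : ℝ) * (2 / N + 1) + C) / ((q / N : ℝ) - d * c') < n :=
      hn0.trans_le (by exact_mod_cast hn1)
    rw [div_lt_iff₀ hd] at h7
    linarith
  have h7 : (q : ℝ) * (n / N - 2 / N - 1) = (q / N : ℝ) * n - q * (2 / N + 1) := by ring
  have h8 : (d : ℝ) * (c' * n) ≤ d * fmax k n := by nlinarith
  exact le_of_mul_le_mul_left h8 hd1

/-- test all numbers with `d` binary digits after the prefix `m` -/
def allM (f : ℕ → Bool) : ℕ → ℕ → Bool
  | 0, m => f m
  | d + 1, m => allM f d (2 * m) && allM f d (2 * m + 1)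

theorem allM_spec (f : ℕ → Bool) (d m : ℕ) (h : allM f d m = true) :
    ∀ x < 2 ^ d, f (2 ^ d * m + x) = true := by
  induction d generalizing m with
  | zero =>
    intro x hx
    have : x = 0 := by simpa using hx
    subst this
    simpa [allM] using h
  | succ d ih =>
    intro x hx
    rw [allM, Bool.and_eq_true] at h
    have hpow : 2 ^ (d + 1) = 2 * 2 ^ d := by ring
    rcases lt_or_ge x (2 ^ d) with h1 | h1
    · have h2 := ih _ h.1 x h1
      have h3 : 2 ^ d * (2 * m) + x = 2 ^ (d + 1) * m + x := by rw [hpow]; ring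
      rwa [h3] at h2
    · have h2 := ih _ h.2 (x - 2 ^ d) (by omega)
      have h3 : 2 ^ d * (2 * m + 1) + (x - 2 ^ d) = 2 ^ (d + 1) * m + x := by
        rw [hpow]
        have h4 : 2 ^ d * (2 * m + 1) + (x - 2 ^ d) = 2 ^ d * (2 * m) + (2 ^ d + (x - 2 ^ d)) := by
          ring
        rw [h4, Nat.add_sub_cancel' h1]
        ring
      rwa [h3] at h2

theorem allM_zero {f : ℕ → Bool} {d : ℕ} (h : allM f d 0 = true) : ∀ x < 2 ^ d, f x = true := by
  intro x hx
  have h1 := allM_spec f d 0 h x hx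
  simpa using h1

/-- all data of a gadget -/
structure Gadget (k N q d : ℕ) where
  /-- edges -/
  E : List (ℕ × ℕ)
  /-- paths -/
  pl : List (List ℕ)
  /-- potential -/
  g : Bool → Bool → ℕ
  hk : 1 ≤ k
  hN : 2 ≤ N
  hd : 1 ≤ d
  hgood : good N E = true
  hpl : okPaths N k E pl = true
  hok : ∀ m < 2 ^ (N + 2), ok N q d g pl m = true
  nest : Nest N E

theorem Gadget.psi_piece {k N q d : ℕ} (T : Gadget k N q d) {C : ℕ} (hC : ∀ a b, T.g a b ≤ C)
    (n J : ℕ) (hJ : N * J + 2 ≤ n) : q * J ≤ d * psi k (piece N T.E n) + C := by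
  obtain ⟨S, hS, hc⟩ := Nat.sInf_mem
    (s := {m | ∃ S : Finset (Fin n), IsCover k (piece N T.E n) S ∧ S.card = m})
    ⟨_, Finset.univ, cover_univ T.hk _, rfl⟩
  rw [psi, ← hc]
  exact cover_card T.hok T.hpl T.hgood hC hS J hJ

theorem Gadget.fmax_ge {k N q d : ℕ} (T : Gadget k N q d) {C : ℕ} (hC : ∀ a b, T.g a b ≤ C)
    (n J : ℕ) (hJ : N * J + 2 ≤ n) : q * J ≤ d * fmax k n + C := by
  have h1 : psi k (piece N T.E n) ≤ fmax k n :=
    le_csSup (fmax_bdd T.hk n)
      ⟨piece N T.E n, T.nest.planar_piece n, piece_cliqueFree T.hN T.hgood n, rfl⟩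
  have h2 := T.psi_piece hC n J hJ
  have h3 := Nat.mul_le_mul_left d h1
  omega

theorem Gadget.c2_ge {k N q d : ℕ} (T : Gadget k N q d) : (q / (d * N) : ℝ) ≤ c2 k := by
  have hC : ∀ a b, T.g a b ≤ T.g false false + T.g false true + T.g true false +
      T.g true true := by
    intro a b
    cases a <;> cases b <;> omega
  exact le_c2 T.hk T.hN T.hd fun n J hJ => T.fmax_ge hC n J hJ

end Pool.Agent.helper20.KP
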