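import Mathlib

/-!
# Path vertex covers of planar triangle-free graphs (MP_9d813a_co): definitions
-/

set_option autoImplicit false

open Set Filter

namespace Pool.Agent.helper20.KP

/-- `P` is a straight-line drawing of `G` in the plane without crossings -/
structure Drawing {V : Type*} (G : SimpleGraph V) (P : V → ℝ × ℝ) : Prop where
  /-- distinct vertices are distinct points -/
  inj : Function.Injective P
  /-- no edge passes through a vertex which is not one of its ends -/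
  vertex : ∀ u v w, G.Adj u v → P w ∈ segment ℝ (P u) (P v) → w = u ∨ w = v
  /-- distinct edges meet only in common ends -/
  edge : ∀ u v u' v', G.Adj u v → G.Adj u' v' → s(u, v) ≠ s(u', v') →
    ∀ x, x ∈ segment ℝ (P u) (P v) → x ∈ segment ℝ (P u') (P v') →
      ∃ w, (w = u ∨ w = v) ∧ (w = u' ∨ w = v') ∧ x = P w

/-- planar graphs (straight-line drawings) -/
def Planar {V : Type*} (G : SimpleGraph V) : Prop := ∃ P : V → ℝ × ℝ, Drawing G P

/-- `S` is a `k`-path vertex cover: every path on `k` vertices contains a vertex of `S` -/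
def IsCover {V : Type*} (k : ℕ) (G : SimpleGraph V) (S : Finset V) : Prop :=
  ∀ l : List V, l.length = k → l.Nodup → l.IsChain G.Adj → ∃ v ∈ l, v ∈ S

/-- the `k`-path vertex cover number -/
noncomputable def psi {V : Type*} (k : ℕ) (G : SimpleGraph V) : ℕ :=
  sInf {m | ∃ S : Finset V, IsCover k G S ∧ S.card = m}

/-- the maximum of `psi k` over the planar triangle-free graphs with `n` vertices -/
noncomputable def fmax (k n : ℕ) : ℕ :=
  sSup {m | ∃ G : SimpleGraph (Fin n), Planar G ∧ G.CliqueFree 3 ∧ psi k G = m}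

/-- the constant `c_{2,k}` -/
noncomputable def c2 (k : ℕ) : ℝ := limsup (fun n : ℕ => (fmax k n : ℝ) / n) atTop

/-- the infinite chain of copies of the graph with vertices `0, …, N + 1` and edge list `E`;
copy `i` has the vertices `N * i + j`, and consecutive copies share two vertices -/
def chain (N : ℕ) (E : List (ℕ × ℕ)) : SimpleGraph ℕ :=
  SimpleGraph.fromRel fun m m' => ∃ i, ∃ e ∈ E, m = N * i + e.1 ∧ m' = N * i + e.2

theorem chain_adj {N : ℕ} {E : List (ℕ × ℕ)} {m m' : ℕ} (h : (chain N E).Adj m m') :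
    ∃ i, ∃ e ∈ E, (m = N * i + e.1 ∧ m' = N * i + e.2) ∨ (m = N * i + e.2 ∧ m' = N * i + e.1) := by
  rw [chain, SimpleGraph.fromRel_adj] at h
  rcases h.2 with ⟨i, e, he, h1, h2⟩ | ⟨i, e, he, h1, h2⟩
  · exact ⟨i, e, he, Or.inl ⟨h1, h2⟩⟩
  · exact ⟨i, e, he, Or.inr ⟨h2, h1⟩⟩

theorem adj_chain {N : ℕ} {E : List (ℕ × ℕ)} {a b : ℕ} (i : ℕ) (hab : a ≠ b)
    (h : (a, b) ∈ E ∨ (b, a) ∈ E) : (chain N E).Adj (N * i + a) (N * i + b) := by
  rw [chain, SimpleGraph.fromRel_adj]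
  refine ⟨by omega, ?_⟩
  rcases h with h | h
  · exact Or.inl ⟨i, (a, b), h, rfl, rfl⟩
  · exact Or.inr ⟨i, (b, a), h, rfl, rfl⟩

/-- the first `n` vertices of the chain -/
def piece (N : ℕ) (E : List (ℕ × ℕ)) (n : ℕ) : SimpleGraph (Fin n) :=
  (chain N E).comap Fin.val

theorem Drawing.comap {V W : Type*} {G : SimpleGraph V} {P : V → ℝ × ℝ} (h : Drawing G P)
    {φ : W → V} (hφ : Function.Injective φ) : Drawing (G.comap φ) fun w => P (φ w) where
  inj := h.inj.comp hφ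
  vertex := fun u v w huv hw => by
    rcases h.vertex (φ u) (φ v) (φ w) huv hw with h1 | h1
    · exact Or.inl (hφ h1)
    · exact Or.inr (hφ h1)
  edge := fun u v u' v' h1 h2 hne x hx hx' => by
    obtain ⟨w, hw1, hw2, hw3⟩ := h.edge (φ u) (φ v) (φ u') (φ v') h1 h2 (by
      intro h3
      rw [Sym2.eq_iff] at h3
      apply hne
      rw [Sym2.eq_iff]
      rcases h3 with ⟨h4, h5⟩ | ⟨h4, h5⟩
      · exact Or.inl ⟨hφ h4, hφ h5⟩
      · exact Or.inr ⟨hφ h4, hφ h5⟩) x hx hx'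
    rcases hw1 with rfl | rfl
    · refine ⟨u, Or.inl rfl, ?_, hw3⟩
      rcases hw2 with h4 | h4
      · exact Or.inl (hφ h4)
      · exact Or.inr (hφ h4)
    · refine ⟨v, Or.inr rfl, ?_, hw3⟩
      rcases hw2 with h4 | h4
      · exact Or.inl (hφ h4)
      · exact Or.inr (hφ h4)

/-- drawings of one copy which can be nested -/
structure Nest (N : ℕ) (E : List (ℕ × ℕ)) where
  /-- the points -/
  p : ℕ → ℝ × ℝ
  /-- the contraction -/
  A : (ℝ × ℝ) →ᵃ[ℝ] (ℝ × ℝ)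
  /-- the region -/
  D : Set (ℝ × ℝ)
  hN : 2 ≤ N
  hE : ∀ e ∈ E, e.1 ≤ N + 1 ∧ e.2 ≤ N + 1
  injA : Function.Injective A
  h0 : A (p 0) = p N
  h1 : A (p 1) = p (N + 1)
  mapD : ∀ x ∈ D, A x ∈ D
  conv : Convex ℝ D
  mem : ∀ j ≤ N + 1, p j ∈ D
  inj : ∀ i ≤ N + 1, ∀ j ≤ N + 1, p i = p j → i = j
  vert : ∀ e ∈ E, ∀ j ≤ N + 1, p j ∈ segment ℝ (p e.1) (p e.2) → j = e.1 ∨ j = e.2
  cross : ∀ e ∈ E, ∀ f ∈ E, ¬ (e.1 = f.1 ∧ e.2 = f.2) → ¬ (e.1 = f.2 ∧ e.2 = f.1) →
    ∀ x, x ∈ segment ℝ (p e.1) (p e.2) → x ∈ segment ℝ (p f.1) (p f.2) →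
      ∃ w, (w = e.1 ∨ w = e.2) ∧ (w = f.1 ∨ w = f.2) ∧ x = p w
  deep : ∀ e ∈ E, ∀ x, x ∈ segment ℝ (p e.1) (p e.2) → x ∈ A '' D →
    ∃ r ≤ 1, x = p (N + r) ∧ (e.1 = N + r ∨ e.2 = N + r)
  out : ∀ j < N, p j ∉ A '' D

namespace Nest

variable {N : ℕ} {E : List (ℕ × ℕ)} (T : Nest N E)

/-- the drawing of the chain -/
def P (m : ℕ) : ℝ × ℝ := (T.A^[m / N]) (T.p (m % N))

theorem P_lt (i : ℕ) {j : ℕ} (hj : j < N) : T.P (N * i + j) = (T.A^[i]) (T.p j) := by
  have h2 := T.hN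
  rw [P, Nat.mul_add_mod, Nat.mod_eq_of_lt hj, Nat.mul_add_div (by omega), Nat.div_eq_of_lt hj,
    add_zero]

theorem A_p {r : ℕ} (hr : r ≤ 1) : T.A (T.p r) = T.p (N + r) := by
  interval_cases r
  · exact T.h0
  · exact T.h1

theorem P_eq (i : ℕ) {j : ℕ} (hj : j ≤ N + 1) : T.P (N * i + j) = (T.A^[i]) (T.p j) := by
  rcases lt_or_ge j N with h | h
  · exact T.P_lt i h
  · have h2 := T.hN
    obtain ⟨r, rfl⟩ := Nat.exists_eq_add_of_le h
    have hr : r ≤ 1 := by omega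
    have h3 : N * i + (N + r) = N * (i + 1) + r := by ring
    rw [h3, T.P_lt (i + 1) (by omega), Function.iterate_succ_apply, T.A_p hr]

theorem inj_iter (i : ℕ) : Function.Injective (T.A^[i]) := T.injA.iterate i

theorem seg_iter (i : ℕ) (x y : ℝ × ℝ) :
    (T.A^[i]) '' segment ℝ x y = segment ℝ ((T.A^[i]) x) ((T.A^[i]) y) := by
  induction i generalizing x y with
  | zero => simp
  | succ i ih =>
    rw [Function.iterate_succ, Set.image_comp, image_segment, ih]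
    rfl

/-- the regions -/
def R (i : ℕ) : Set (ℝ × ℝ) := (T.A^[i]) '' T.D

theorem R_succ (i : ℕ) : T.R (i + 1) ⊆ T.R i := by
  rintro - ⟨x, hx, rfl⟩
  rw [Function.iterate_succ_apply]
  exact ⟨T.A x, T.mapD x hx, rfl⟩

theorem R_mono {i j : ℕ} (h : i ≤ j) : T.R j ⊆ T.R i := by
  induction j, h using Nat.le_induction with
  | base => exact subset_rfl
  | succ j _ ih => exact (T.R_succ j).trans ih

theorem seg_sub {e : ℕ × ℕ} (he : e ∈ E) (i : ℕ) :
    segment ℝ ((T.A^[i]) (T.p e.1)) ((T.A^[i]) (T.p e.2)) ⊆ T.R i := by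
  rw [← T.seg_iter]
  have h := T.hE e he
  exact Set.image_mono (T.conv.segment_subset (T.mem _ h.1) (T.mem _ h.2))

theorem mem_R_succ {i : ℕ} {x : ℝ × ℝ} (h : (T.A^[i]) x ∈ T.R (i + 1)) : x ∈ T.A '' T.D := by
  obtain ⟨y, hy, h1⟩ := h
  rw [Function.iterate_succ_apply] at h1
  exact ⟨y, hy, T.inj_iter i h1⟩

theorem out_R {i k j : ℕ} (hk : i < k) (hj : j < N) : (T.A^[i]) (T.p j) ∉ T.R k := fun h =>
  T.out j hj (T.mem_R_succ (T.R_mono hk h))

/-- an edge of copy `i` meets a deeper region only in a common vertex of the next copy -/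
theorem deep_R {e : ℕ × ℕ} (he : e ∈ E) {i k : ℕ} (hik : i < k) {x : ℝ × ℝ}
    (hx : x ∈ segment ℝ ((T.A^[i]) (T.p e.1)) ((T.A^[i]) (T.p e.2))) (hR : x ∈ T.R k) :
    k = i + 1 ∧ ∃ r ≤ 1, x = (T.A^[i + 1]) (T.p r) ∧ (e.1 = N + r ∨ e.2 = N + r) := by
  rw [← T.seg_iter] at hx
  obtain ⟨y, hy, rfl⟩ := hx
  have h2 := T.hN
  obtain ⟨r, hr, h3, h4⟩ := T.deep e he y hy (T.mem_R_succ (T.R_mono hik hR))
  have h5 : (T.A^[i]) y = (T.A^[i + 1]) (T.p r) := by
    rw [Function.iterate_succ_apply, T.A_p hr, h3]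
  refine ⟨?_, r, hr, h5, h4⟩
  by_contra h6
  rw [h5] at hR
  exact T.out_R (show i + 1 < k by omega) (show r < N by omega) hR

theorem P_inj : Function.Injective T.P := by
  have h2 := T.hN
  have key : ∀ i j i' j', j < N → j' < N → i ≤ i' →
      (T.A^[i]) (T.p j) = (T.A^[i']) (T.p j') → i = i' ∧ j = j' := by
    intro i j i' j' hj hj' hii h
    rcases hii.eq_or_lt with rfl | hlt
    · exact ⟨rfl, T.inj _ (by omega) _ (by omega) (T.inj_iter i h)⟩
    · exfalso
      refine T.out_R hlt hj ?_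
      rw [h]
      exact ⟨_, T.mem _ (by omega), rfl⟩
  intro m m' h
  have hm := Nat.div_add_mod m N
  have hm' := Nat.div_add_mod m' N
  have h3 := Nat.mod_lt m (show 0 < N by omega)
  have h4 := Nat.mod_lt m' (show 0 < N by omega)
  rcases le_total (m / N) (m' / N) with hle | hle
  · obtain ⟨h5, h6⟩ := key _ _ _ _ h3 h4 hle h
    rw [← hm, ← hm', h5, h6]
  · obtain ⟨h5, h6⟩ := key _ _ _ _ h4 h3 hle h.symm
    rw [← hm, ← hm', h5, h6]

theorem vertex_aux {e : ℕ × ℕ} (he : e ∈ E) (i m : ℕ)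
    (h : T.P m ∈ segment ℝ ((T.A^[i]) (T.p e.1)) ((T.A^[i]) (T.p e.2))) :
    m = N * i + e.1 ∨ m = N * i + e.2 := by
  have h2 := T.hN
  have hm := Nat.div_add_mod m N
  have h3 := Nat.mod_lt m (show 0 < N by omega)
  set i' := m / N with hi'
  set j := m % N with hj
  have hP : T.P m = (T.A^[i']) (T.p j) := rfl
  rcases lt_trichotomy i' i with hlt | heq | hgt
  · -- the edge is deeper
    exfalso
    refine T.out_R hlt h3 ?_
    rw [← hP]
    exact T.seg_sub he i h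
  · rw [hP, heq, ← T.seg_iter] at h
    obtain ⟨y, hy, h5⟩ := h
    rw [T.inj_iter i h5] at hy
    rcases T.vert e he j (by omega) hy with h6 | h6
    · left; rw [← hm, heq, h6]
    · right; rw [← hm, heq, h6]
  · have hR : T.P m ∈ T.R i' := by
      rw [hP]
      exact ⟨_, T.mem _ (by omega), rfl⟩
    obtain ⟨h6, r, hr, h7, h8⟩ := T.deep_R he hgt h hR
    rw [hP, h6] at h7
    have h9 := T.inj _ (by omega) _ (by omega) (T.inj_iter _ h7)
    have h10 : m = N * i + (N + r) := by rw [← hm, h6, h9]; ring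
    rcases h8 with h8 | h8
    · left; rw [h8]; exact h10
    · right; rw [h8]; exact h10

theorem edge_aux {e f : ℕ × ℕ} (he : e ∈ E) (hf : f ∈ E) {i i' : ℕ} (hii : i ≤ i')
    (hne : s(N * i + e.1, N * i + e.2) ≠ s(N * i' + f.1, N * i' + f.2)) {x : ℝ × ℝ}
    (hx : x ∈ segment ℝ ((T.A^[i]) (T.p e.1)) ((T.A^[i]) (T.p e.2)))
    (hx' : x ∈ segment ℝ ((T.A^[i']) (T.p f.1)) ((T.A^[i']) (T.p f.2))) :
    ∃ w, (w = N * i + e.1 ∨ w = N * i + e.2) ∧ (w = N * i' + f.1 ∨ w = N * i' + f.2) ∧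
      x = T.P w := by
  have h2 := T.hN
  have hEe := T.hE e he
  have hEf := T.hE f hf
  rcases hii.eq_or_lt with rfl | hlt
  · rw [← T.seg_iter] at hx hx'
    obtain ⟨y, hy, rfl⟩ := hx
    obtain ⟨y', hy', h3⟩ := hx'
    rw [T.inj_iter i h3] at hy'
    obtain ⟨w, hw1, hw2, hw3⟩ := T.cross e he f hf (by
      rintro ⟨h4, h5⟩
      exact hne (by rw [h4, h5])) (by
      rintro ⟨h4, h5⟩
      exact hne (by rw [h4, h5]; exact Sym2.eq_swap)) y hy hy'
    have hw : w ≤ N + 1 := by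
      rcases hw1 with rfl | rfl
      · exact hEe.1
      · exact hEe.2
    refine ⟨N * i + w, ?_, ?_, ?_⟩
    · rcases hw1 with h | h
      · left; rw [h]
      · right; rw [h]
    · rcases hw2 with h | h
      · left; rw [h]
      · right; rw [h]
    · rw [T.P_eq i hw, hw3]
  · obtain ⟨h3, r, hr, h4, h5⟩ := T.deep_R he hlt hx (T.seg_sub hf i' hx')
    subst h3
    refine ⟨N * (i + 1) + r, ?_, ?_, ?_⟩
    · have h6 : N * (i + 1) + r = N * i + (N + r) := by ring
      rw [h6]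
      rcases h5 with h | h
      · left; rw [h]
      · right; rw [h]
    · have h7 : T.P (N * (i + 1) + r) = x := by
        rw [T.P_eq (i + 1) (show r ≤ N + 1 by omega), h4]
      refine T.vertex_aux hf (i + 1) _ ?_
      rw [h7]
      exact hx'
    · rw [T.P_eq (i + 1) (show r ≤ N + 1 by omega), h4]

theorem drawing : Drawing (chain N E) T.P where
  inj := T.P_inj
  vertex := by
    intro u v w huv hw
    obtain ⟨i, e, he, h1 | h1⟩ := chain_adj huv
    · obtain ⟨rfl, rfl⟩ := h1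
      have hEe := T.hE e he
      rw [T.P_eq i hEe.1, T.P_eq i hEe.2] at hw
      exact T.vertex_aux he i w hw
    · obtain ⟨rfl, rfl⟩ := h1
      have hEe := T.hE e he
      rw [T.P_eq i hEe.1, T.P_eq i hEe.2, segment_symm] at hw
      exact (T.vertex_aux he i w hw).symm
  edge := by
    have key : ∀ i i' : ℕ, ∀ e ∈ E, ∀ f ∈ E,
        s(N * i + e.1, N * i + e.2) ≠ s(N * i' + f.1, N * i' + f.2) → ∀ x,
        x ∈ segment ℝ (T.P (N * i + e.1)) (T.P (N * i + e.2)) →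
        x ∈ segment ℝ (T.P (N * i' + f.1)) (T.P (N * i' + f.2)) →
        ∃ w, (w = N * i + e.1 ∨ w = N * i + e.2) ∧ (w = N * i' + f.1 ∨ w = N * i' + f.2) ∧
          x = T.P w := by
      intro i i' e he f hf hne x hx hx'
      have hEe := T.hE e he
      have hEf := T.hE f hf
      rw [T.P_eq i hEe.1, T.P_eq i hEe.2] at hx
      rw [T.P_eq i' hEf.1, T.P_eq i' hEf.2] at hx'
      rcases le_total i i' with h | h
      · exact T.edge_aux he hf h hne hx hx'
      · obtain ⟨w, h1, h2, h3⟩ := T.edge_aux hf he h hne.symm hx' hx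
        exact ⟨w, h2, h1, h3⟩
    intro u v u' v' huv huv' hne x hx hx'
    obtain ⟨i, e, he, h1⟩ := chain_adj huv
    obtain ⟨i', f, hf, h2⟩ := chain_adj huv'
    rcases h1 with ⟨rfl, rfl⟩ | ⟨rfl, rfl⟩ <;> rcases h2 with ⟨rfl, rfl⟩ | ⟨rfl, rfl⟩
    · exact key i i' e he f hf hne x hx hx'
    · rw [segment_symm] at hx'
      obtain ⟨w, h3, h4, h5⟩ := key i i' e he f hf (by
        rwa [Sym2.eq_swap (a := N * i' + f.1)]) x hx hx'
      exact ⟨w, h3, h4.symm, h5⟩
    · rw [segment_symm] at hx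
      obtain ⟨w, h3, h4, h5⟩ := key i i' e he f hf (by
        rwa [Sym2.eq_swap (a := N * i + e.1)]) x hx hx'
      exact ⟨w, h3.symm, h4, h5⟩
    · rw [segment_symm] at hx hx'
      obtain ⟨w, h3, h4, h5⟩ := key i i' e he f hf (by
        rwa [Sym2.eq_swap (a := N * i + e.1), Sym2.eq_swap (a := N * i' + f.1)]) x hx hx'
      exact ⟨w, h3.symm, h4.symm, h5⟩

theorem planar_piece (T : Nest N E) (n : ℕ) : Planar (piece N E n) :=
  ⟨_, Drawing.comap T.drawing Fin.val_injective⟩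

end Nest

end Pool.Agent.helper20.KP
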