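import Pool.Agent.helper20.KP.Tree
import Pool.Agent.helper20.KP.Geom

/-!
# Path vertex covers: the gadget for k = 3
-/

set_option autoImplicit false

namespace Pool.Agent.helper20.KP

/-- edges of the copy -/
def EA : List (ℕ × ℕ) := [
  (0, 2), (0, 4), (0, 5), (1, 3), (1, 7), (4, 9), (5, 9), (4, 10), (5, 10), (2, 3), (2, 6),
  (2, 7), (3, 8), (4, 6), (4, 7), (5, 6), (7, 8)]

/-- the paths used: vertex sets in base 2, vertex lists in base 32 -/
def plA : List (ℕ × ℕ) := [
  (49, 5124), (529, 9344), (145, 135), (81, 6272), (21, 2052), (1041, 10368), (37, 2053),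
  (133, 71), (13, 67), (112, 5316), (208, 7302), (656, 9351), (148, 2276), (1057, 10400),
  (100, 5314), (592, 6281), (545, 9376), (84, 4290), (388, 8418), (97, 6304), (140, 3143),
  (1168, 10375), (69, 70), (400, 8420), (608, 9382), (1072, 4421), (1120, 10406), (392, 3335),
  (560, 5412), (268, 8290), (1104, 6282), (266, 8289), (138, 3111), (386, 8417)]

/-- the potential -/
def gA : Bool → Bool → ℕ
  | false, false => 0
  | true, false => 1
  | false, true => 1
  | true, true => 1

/-- the points -/
def ptsA : List (ℤ × ℤ) := [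
  (0, 0), (60, 0), (25, 7), (37, 5), (22, 12), (15, 7), (22, 10), (38, 17), (39, 8), (18, 9),
  (17, 9)]

/-- separating lines -/
def lnA : List (ℤ × ℤ × ℤ) := [
  (0, -1, 9), (-12, 22, 1), (1, -1, -9), (-1, 2, -1), (3, -7, 5)]

theorem goodA : good 9 EA = true := by decide +kernel

/-- the adjacency matrix -/
def amA : ℕ := 102527377748075199318378524863366717163377158514620185379641447688885019039901624178366484762853428

theorem okaA : okA 9 EA amA = true := by decide +kernel

theorem chkA : chkAll 9 amA 2 plA = true := by decide +kernel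

theorem gokA : gOK 1 gA = true := by decide +kernel

theorem allA : run (bd 9 5 1 gA) 3 7 plA 0 0 = true := by decide +kernel

/-- the lists of vertices -/
def psA : List (List ℕ) := plA.map fun p => dec 3 p.2

theorem okpA : okPaths 9 3 EA psA = true := okPaths_of (k := 2) okaA chkA

theorem hokA : ∀ m < 2 ^ (9 + 2), ok 9 5 1 gA psA m = true :=
  ok_of_run (k := 3) (n := 7) (pl := plA) (by norm_num) gokA allA

theorem geoA : checkGeom 9 EA (fun j => ptsA.getD j (0, 0)) (30, 60) (19, 10) lnA = true := by
  decide +kernel

/-- the gadget -/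
noncomputable def GA : Gadget 3 9 5 1 where
  E := EA
  pl := psA
  g := gA
  hk := by norm_num
  hN := by norm_num
  hd := by norm_num
  hgood := goodA
  hpl := okpA
  hok := hokA
  nest := (checks_of geoA).nest

theorem c2_3 : (5 / 9 : ℝ) ≤ c2 3 := by
  have h := GA.c2_ge
  norm_num at h ⊢
  exact h

end Pool.Agent.helper20.KP
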