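import Mathlib

/-!
# Long paths in a grid with few deleted cells

In a window of `s` rows of a grid with `L` columns, from which `t ≤ L - 1` cells have been
deleted, there is a path on at least `(s - t) L - 2 t` cells: it runs through the rows without
deleted cells, alternately from left to right and from right to left.
-/

set_option autoImplicit false

open Finset

namespace Pool.Agent.helper20.KP

/-- adjacent cells -/
def Adjc (x y : ℕ × ℕ) : Prop :=
  (x.1 = y.1 ∧ (x.2 + 1 = y.2 ∨ y.2 + 1 = x.2)) ∨ (x.2 = y.2 ∧ (x.1 + 1 = y.1 ∨ y.1 + 1 = x.1))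

/-- paths of cells which are not deleted, from row `R` on -/
structure Pth (L R : ℕ) (D : ℕ → ℕ → Prop) (l : List (ℕ × ℕ)) : Prop where
  chain : l.IsChain Adjc
  nodup : l.Nodup
  col : ∀ x ∈ l, x.2 < L
  row : ∀ x ∈ l, R ≤ x.1
  free : ∀ x ∈ l, ¬ D x.1 x.2

theorem Pth.cons {L R : ℕ} {D : ℕ → ℕ → Prop} {x y : ℕ × ℕ} {l : List (ℕ × ℕ)}
    (h : Pth L R D (x :: l)) (hyx : Adjc y x) (hy : y ∉ x :: l) (h1 : y.2 < L) (h2 : R ≤ y.1)
    (h3 : ¬ D y.1 y.2) : Pth L R D (y :: x :: l) where
  chain := by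
    rw [List.isChain_cons_cons]
    exact ⟨hyx, h.chain⟩
  nodup := List.nodup_cons.2 ⟨hy, h.nodup⟩
  col := by
    intro z hz
    rcases List.mem_cons.1 hz with rfl | hz
    · exact h1
    · exact h.col z hz
  row := by
    intro z hz
    rcases List.mem_cons.1 hz with rfl | hz
    · exact h2
    · exact h.row z hz
  free := by
    intro z hz
    rcases List.mem_cons.1 hz with rfl | hz
    · exact h3
    · exact h.free z hz

/-- extension to the right -/
theorem ext_right {L R : ℕ} {D : ℕ → ℕ → Prop} {r e : ℕ} {l : List (ℕ × ℕ)}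
    (h : Pth L R D ((r, e) :: l)) (hl : ∀ x ∈ l, x.1 < r) (hr : ∀ c < L, ¬ D r c) (m : ℕ)
    (hm : e + m < L) : ∃ l', Pth L R D ((r, e + m) :: l') ∧ l'.length = l.length + m ∧
      ∀ x ∈ l', x.1 < r ∨ (x.1 = r ∧ x.2 < e + m) := by
  induction m with
  | zero => exact ⟨l, h, rfl, fun x hx => Or.inl (hl x hx)⟩
  | succ m ih =>
    obtain ⟨l', h1, h2, h3⟩ := ih (by omega)
    refine ⟨(r, e + m) :: l', h1.cons ?_ ?_ hm ?_ (hr _ hm), ?_, ?_⟩
    · left
      exact ⟨rfl, Or.inr (by show e + m + 1 = e + (m + 1); omega)⟩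
    · intro hmem
      rcases List.mem_cons.1 hmem with h4 | h4
      · have := congrArg Prod.snd h4
        simp at this
      · rcases h3 _ h4 with h5 | h5
        · exact absurd h5 (lt_irrefl _)
        · have := h5.2
          simp at this
    · exact h.row (r, e) (List.mem_cons.2 (Or.inl rfl))
    · rw [List.length_cons, h2]
      omega
    · intro x hx
      rcases List.mem_cons.1 hx with rfl | hx
      · right
        exact ⟨rfl, by show e + m < e + (m + 1); omega⟩
      · rcases h3 x hx with h5 | h5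
        · exact Or.inl h5
        · exact Or.inr ⟨h5.1, by omega⟩

/-- extension downwards -/
theorem ext_down {L R : ℕ} {D : ℕ → ℕ → Prop} {r b : ℕ} {l : List (ℕ × ℕ)}
    (h : Pth L R D ((r, b) :: l)) (hl : ∀ x ∈ l, x.1 ≤ r) (m : ℕ)
    (hD : ∀ i ≤ m, ¬ D (r + 1 + i) b) : ∃ l', Pth L R D ((r + 1 + m, b) :: l') ∧
      l'.length = l.length + (m + 1) ∧ ∀ x ∈ l', x.1 < r + 1 + m := by
  have hb : b < L := h.col (r, b) (List.mem_cons.2 (Or.inl rfl))
  have hR : R ≤ r := h.row (r, b) (List.mem_cons.2 (Or.inl rfl))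
  induction m with
  | zero =>
    refine ⟨(r, b) :: l, h.cons ?_ ?_ hb ?_ (hD 0 le_rfl), ?_, ?_⟩
    · right
      exact ⟨rfl, Or.inr rfl⟩
    · intro hmem
      rcases List.mem_cons.1 hmem with h4 | h4
      · have := congrArg Prod.fst h4
        simp at this
      · have := hl _ h4
        simp at this
    · show R ≤ r + 1 + 0
      omega
    · rw [List.length_cons]
    · intro x hx
      rcases List.mem_cons.1 hx with rfl | hx
      · show r < r + 1 + 0
        omega
      · have := hl x hx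
        omega
  | succ m ih =>
    obtain ⟨l', h1, h2, h3⟩ := ih fun i hi => hD i (by omega)
    refine ⟨(r + 1 + m, b) :: l', h1.cons ?_ ?_ hb ?_ (hD (m + 1) le_rfl), ?_, ?_⟩
    · right
      exact ⟨rfl, Or.inr (by show r + 1 + m + 1 = r + 1 + (m + 1); omega)⟩
    · intro hmem
      rcases List.mem_cons.1 hmem with h4 | h4
      · have := congrArg Prod.fst h4
        simp at this
      · have := h3 _ h4
        simp at this
    · show R ≤ r + 1 + (m + 1)
      omega
    · rw [List.length_cons, h2]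
      omega
    · intro x hx
      rcases List.mem_cons.1 hx with rfl | hx
      · show r + 1 + m < r + 1 + (m + 1)
        omega
      · have := h3 x hx
        omega

section count
open Classical

/-- number of deleted cells in a row -/
noncomputable def dl (L : ℕ) (D : ℕ → ℕ → Prop) (r : ℕ) : ℕ :=
  ((range L).filter fun c => D r c).card

theorem dl_zero {L : ℕ} {D : ℕ → ℕ → Prop} {r : ℕ} (h : dl L D r = 0) : ∀ c < L, ¬ D r c := by
  intro c hc hD
  rw [dl, card_eq_zero] at h
  have : c ∈ (range L).filter fun c => D r c := mem_filter.2 ⟨mem_range.2 hc, hD⟩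
  rw [h] at this
  simp at this

/-- the mirror image -/
def mir (L : ℕ) (D : ℕ → ℕ → Prop) : ℕ → ℕ → Prop := fun r c => D r (L - 1 - c)

theorem dl_mir (L : ℕ) (D : ℕ → ℕ → Prop) (r : ℕ) : dl L (mir L D) r = dl L D r := by
  rw [dl, dl]
  refine card_bij (fun c _ => L - 1 - c) ?_ ?_ ?_
  · intro c hc
    obtain ⟨h1, h2⟩ := mem_filter.1 hc
    have := mem_range.1 h1
    exact mem_filter.2 ⟨mem_range.2 (by omega), h2⟩
  · intro c hc c' hc' h
    have h1 := mem_range.1 (mem_filter.1 hc).1
    have h2 := mem_range.1 (mem_filter.1 hc').1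
    omega
  · intro c hc
    obtain ⟨h1, h2⟩ := mem_filter.1 hc
    have h3 := mem_range.1 h1
    refine ⟨L - 1 - c, mem_filter.2 ⟨mem_range.2 (by omega), ?_⟩, by omega⟩
    show D r (L - 1 - (L - 1 - c))
    have : L - 1 - (L - 1 - c) = c := by omega
    rw [this]
    exact h2

/-- the number of deleted cells in the rows from `R` to `r - 1` -/
noncomputable def DL (L R : ℕ) (D : ℕ → ℕ → Prop) (r : ℕ) : ℕ := ∑ i ∈ Ico R r, dl L D i

/-- the number of rows without deleted cells among the rows from `R` to `r - 1` -/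
noncomputable def FR (L R : ℕ) (D : ℕ → ℕ → Prop) (r : ℕ) : ℕ :=
  ((Ico R r).filter fun i => dl L D i = 0).card

theorem DL_mir (L R : ℕ) (D : ℕ → ℕ → Prop) (r : ℕ) : DL L R (mir L D) r = DL L R D r :=
  sum_congr rfl fun i _ => dl_mir L D i

theorem FR_mir (L R : ℕ) (D : ℕ → ℕ → Prop) (r : ℕ) : FR L R (mir L D) r = FR L R D r := by
  rw [FR, FR]
  simp only [dl_mir]

/-- there is a long path which ends in row `r` near the left side -/
def Goodr (L R : ℕ) (D : ℕ → ℕ → Prop) (r : ℕ) : Prop :=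
  ∃ e l tp, Pth L R D ((r, e) :: l) ∧ (∀ x ∈ l, x.1 < r) ∧ e ≤ tp ∧ tp ≤ DL L R D r ∧
    1 + FR L R D r * L + tp ≤ (l.length + 1) + 2 * DL L R D r

/-- a free column near the right side -/
theorem exists_col {L : ℕ} {D : ℕ → ℕ → Prop} (r1 r : ℕ) (hg : ∑ i ∈ Ico (r1 + 1) r, dl L D i < L) :
    ∃ b < L, L ≤ b + 1 + ∑ i ∈ Ico (r1 + 1) r, dl L D i ∧ ∀ i ∈ Ico (r1 + 1) r, ¬ D i b := by
  by_contra hcon
  push Not at hcon
  set t := ∑ i ∈ Ico (r1 + 1) r, dl L D i with ht
  have h1 : Ico (L - 1 - t) L ⊆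
      (Ico (r1 + 1) r).biUnion fun i => (range L).filter fun c => D i c := by
    intro b hb
    obtain ⟨h2, h3⟩ := mem_Ico.1 hb
    obtain ⟨i, hi, hD⟩ := hcon b h3 (by omega)
    exact mem_biUnion.2 ⟨i, hi, mem_filter.2 ⟨mem_range.2 h3, hD⟩⟩
  have h2 := (card_le_card h1).trans card_biUnion_le
  rw [Nat.card_Ico] at h2
  change _ ≤ t at h2
  omega

theorem mir_pth {L R : ℕ} {D : ℕ → ℕ → Prop} {l : List (ℕ × ℕ)} (h : Pth L R D l) :
    Pth L R (mir L D) (l.map fun x => (x.1, L - 1 - x.2)) where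
  chain := by
    rw [List.isChain_map]
    have h1 : ∀ x y : ℕ × ℕ, x.2 < L → y.2 < L → Adjc x y →
        Adjc (x.1, L - 1 - x.2) (y.1, L - 1 - y.2) := by
      intro x y hx hy hxy
      rcases hxy with ⟨h2, h3⟩ | ⟨h2, h3⟩
      · left
        refine ⟨h2, ?_⟩
        show L - 1 - x.2 + 1 = L - 1 - y.2 ∨ L - 1 - y.2 + 1 = L - 1 - x.2
        omega
      · right
        refine ⟨?_, h3⟩
        show L - 1 - x.2 = L - 1 - y.2
        rw [h2]
    have h2 := h.chain
    have h3 := h.col
    clear h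
    induction l with
    | nil => exact List.IsChain.nil
    | cons x l ih =>
      cases l with
      | nil => exact List.IsChain.singleton _
      | cons y l =>
        rw [List.isChain_cons_cons] at h2 ⊢
        refine ⟨h1 x y (h3 x (by simp)) (h3 y (by simp)) h2.1, ih h2.2 fun z hz => h3 z ?_⟩
        exact List.mem_cons_of_mem _ hz
  nodup := by
    refine List.Nodup.map_on ?_ h.nodup
    intro x hx y hy hxy
    have h1 := h.col x hx
    have h2 := h.col y hy
    rw [Prod.mk.injEq] at hxy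
    refine Prod.ext hxy.1 ?_
    have := hxy.2
    omega
  col := by
    intro y hy
    obtain ⟨x, hx, rfl⟩ := List.mem_map.1 hy
    have := h.col x hx
    show L - 1 - x.2 < L
    omega
  row := by
    intro y hy
    obtain ⟨x, hx, rfl⟩ := List.mem_map.1 hy
    exact h.row x hx
  free := by
    intro y hy
    obtain ⟨x, hx, rfl⟩ := List.mem_map.1 hy
    have h1 := h.col x hx
    show ¬ D x.1 (L - 1 - (L - 1 - x.2))
    have : L - 1 - (L - 1 - x.2) = x.2 := by omega
    rw [this]
    exact h.free x hx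

theorem good_step {L R : ℕ} {D : ℕ → ℕ → Prop} {r1 r : ℕ} (hR : R ≤ r1) (hr : r1 < r)
    (h1 : dl L D r1 = 0) (h2 : dl L D r = 0) (hgap : ∀ i ∈ Ico (r1 + 1) r, dl L D i ≠ 0)
    (ht : DL L R D r < L) (h : Goodr L R D r1) : Goodr L R (mir L D) r := by
  obtain ⟨e, l, tp, hp, hl, he, htp, hlen⟩ := h
  have hDL : DL L R D r = DL L R D r1 + ∑ i ∈ Ico (r1 + 1) r, dl L D i := by
    rw [DL, DL, ← sum_Ico_consecutive _ hR hr.le, sum_eq_sum_Ico_succ_bot hr, h1, zero_add]
  have hFR : FR L R D r = FR L R D r1 + 1 := by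
    rw [FR, FR]
    have h3 : (Ico R r).filter (fun i => dl L D i = 0) =
        insert r1 ((Ico R r1).filter fun i => dl L D i = 0) := by
      ext i
      simp only [mem_filter, mem_Ico, mem_insert]
      constructor
      · rintro ⟨⟨h4, h5⟩, h6⟩
        rcases lt_trichotomy i r1 with h7 | h7 | h7
        · exact Or.inr ⟨⟨h4, h7⟩, h6⟩
        · exact Or.inl h7
        · exact absurd h6 (hgap i (mem_Ico.2 ⟨h7, h5⟩))
      · rintro (rfl | ⟨⟨h4, h5⟩, h6⟩)
        · exact ⟨⟨hR, hr⟩, h1⟩
        · exact ⟨⟨h4, by omega⟩, h6⟩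
    rw [h3, card_insert_of_notMem (by simp)]
  set t := ∑ i ∈ Ico (r1 + 1) r, dl L D i with htdef
  obtain ⟨b, hb, hb2, hb3⟩ := exists_col (L := L) (D := D) r1 r (by omega)
  have heb : e ≤ b := by omega
  obtain ⟨m, rfl⟩ := Nat.exists_eq_add_of_le heb
  obtain ⟨l', g1, g2, g3⟩ := ext_right hp hl (dl_zero h1) m hb
  obtain ⟨g, rfl⟩ := Nat.exists_eq_add_of_le (show r1 + 1 ≤ r from hr)
  obtain ⟨l'', k1, k2, k3⟩ := ext_down g1 (fun x hx => by
    rcases g3 x hx with h5 | h5
    · exact h5.le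
    · exact h5.1.le) g (fun i hi => by
    rcases hi.eq_or_lt with rfl | hlt
    · exact dl_zero h2 _ hb
    · exact hb3 _ (mem_Ico.2 ⟨by omega, by omega⟩))
  have hmir := mir_pth k1
  rw [List.map_cons] at hmir
  refine ⟨L - 1 - (e + m), l''.map fun x => (x.1, L - 1 - x.2), t, hmir, ?_, by omega, ?_, ?_⟩
  · intro y hy
    obtain ⟨x, hx, rfl⟩ := List.mem_map.1 hy
    exact k3 x hx
  · rw [DL_mir, hDL]
    omega
  · rw [DL_mir, FR_mir, hDL, hFR, List.length_map, k2, g2, Nat.add_mul, Nat.one_mul]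
    omega

theorem mir_mir {L : ℕ} {D : ℕ → ℕ → Prop} {R : ℕ} {l : List (ℕ × ℕ)}
    (h : Pth L R (mir L (mir L D)) l) : Pth L R D l where
  chain := h.chain
  nodup := h.nodup
  col := h.col
  row := h.row
  free := by
    intro x hx hD
    refine h.free x hx ?_
    have h1 := h.col x hx
    show D x.1 (L - 1 - (L - 1 - x.2))
    have : L - 1 - (L - 1 - x.2) = x.2 := by omega
    rw [this]
    exact hD

theorem good_mir_mir {L R : ℕ} {D : ℕ → ℕ → Prop} {r : ℕ} (h : Goodr L R (mir L (mir L D)) r) :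
    Goodr L R D r := by
  obtain ⟨e, l, tp, hp, hl, he, htp, hlen⟩ := h
  rw [DL_mir, DL_mir] at htp hlen
  rw [FR_mir, FR_mir] at hlen
  exact ⟨e, l, tp, mir_mir hp, hl, he, htp, hlen⟩

theorem good_all {L R : ℕ} (D : ℕ → ℕ → Prop) (r : ℕ) (hR : R ≤ r) (h0 : dl L D r = 0)
    (ht : DL L R D r < L) : Goodr L R D r ∨ Goodr L R (mir L D) r := by
  induction r using Nat.strong_induction_on with
  | _ r ih =>
    by_cases hex : ∃ i, R ≤ i ∧ i < r ∧ dl L D i = 0
    · -- the previous row without deleted cells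
      have hne : ((Ico R r).filter fun i => dl L D i = 0).Nonempty := by
        obtain ⟨i, h1, h2, h3⟩ := hex
        exact ⟨i, mem_filter.2 ⟨mem_Ico.2 ⟨h1, h2⟩, h3⟩⟩
      set r1 := ((Ico R r).filter fun i => dl L D i = 0).max' hne with hr1
      have hm := max'_mem _ hne
      rw [← hr1] at hm
      obtain ⟨hm1, hm2⟩ := mem_filter.1 hm
      obtain ⟨hm3, hm4⟩ := mem_Ico.1 hm1
      have hgap : ∀ i ∈ Ico (r1 + 1) r, dl L D i ≠ 0 := by
        intro i hi h1
        obtain ⟨h2, h3⟩ := mem_Ico.1 hi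
        have hmem : i ∈ (Ico R r).filter fun i => dl L D i = 0 :=
          mem_filter.2 ⟨mem_Ico.2 ⟨by omega, h3⟩, h1⟩
        have h4 := le_max' _ i hmem
        rw [← hr1] at h4
        omega
      have hDL : DL L R D r1 ≤ DL L R D r :=
        sum_le_sum_of_subset (Ico_subset_Ico_right hm4.le)
      rcases ih r1 hm4 hm3 hm2 (by omega) with h | h
      · exact Or.inr (good_step hm3 hm4 hm2 h0 hgap ht h)
      · left
        refine good_mir_mir (good_step hm3 hm4 ?_ ?_ ?_ ?_ h)
        · rw [dl_mir]; exact hm2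
        · rw [dl_mir]; exact h0
        · intro i hi
          rw [dl_mir]
          exact hgap i hi
        · rw [DL_mir]; exact ht
    · left
      push Not at hex
      have hF : FR L R D r = 0 := by
        rw [FR, card_eq_zero, filter_eq_empty_iff]
        intro i hi
        obtain ⟨h1, h2⟩ := mem_Ico.1 hi
        exact hex i h1 h2
      have hL : 0 < L := by omega
      refine ⟨0, [], 0, ⟨List.IsChain.singleton _, by simp, ?_, ?_, ?_⟩, by simp, le_rfl,
        Nat.zero_le _, ?_⟩
      · intro x hx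
        rw [List.mem_singleton] at hx
        rw [hx]
        exact hL
      · intro x hx
        rw [List.mem_singleton] at hx
        rw [hx]
        exact hR
      · intro x hx
        rw [List.mem_singleton] at hx
        rw [hx]
        exact dl_zero h0 0 hL
      · rw [hF]
        simp

theorem exists_pth_good {L R : ℕ} {D : ℕ → ℕ → Prop} {r : ℕ} (h0 : dl L D r = 0)
    (h : Goodr L R D r) : ∃ l, Pth L R D l ∧ (∀ x ∈ l, x.1 ≤ r) ∧
      (FR L R D r + 1) * L ≤ l.length + 2 * DL L R D r := by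
  obtain ⟨e, l, tp, hp, hl, he, htp, hlen⟩ := h
  have he2 : e < L := hp.col (r, e) (List.mem_cons.2 (Or.inl rfl))
  obtain ⟨l', g1, g2, g3⟩ := ext_right hp hl (dl_zero h0) (L - 1 - e) (by omega)
  refine ⟨_, g1, ?_, ?_⟩
  · intro x hx
    rcases List.mem_cons.1 hx with rfl | hx
    · exact le_rfl
    · rcases g3 x hx with h5 | h5
      · exact h5.le
      · exact h5.1.le
  · rw [List.length_cons, g2, Nat.add_mul, Nat.one_mul]
    omega

/-- the long path in a window -/
theorem exists_pth {L R s : ℕ} (D : ℕ → ℕ → Prop) (ht : DL L R D (R + s) < L)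
    (hs : DL L R D (R + s) < s) : ∃ l, Pth L R D l ∧ (∀ x ∈ l, x.1 < R + s) ∧
      (s - DL L R D (R + s)) * L ≤ l.length + 2 * DL L R D (R + s) := by
  -- the number of free rows
  have hcount : s ≤ FR L R D (R + s) + DL L R D (R + s) := by
    have h1 : ((Ico R (R + s)).filter fun i => ¬ dl L D i = 0).card ≤ DL L R D (R + s) := by
      rw [card_filter, DL]
      refine sum_le_sum fun i _ => ?_
      split_ifs with h
      all_goals omega
    have h2 := card_filter_add_card_filter_not (s := Ico R (R + s)) fun i => dl L D i = 0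
    rw [Nat.card_Ico] at h2
    rw [FR]
    omega
  have hne : ((Ico R (R + s)).filter fun i => dl L D i = 0).Nonempty := by
    rw [← card_pos]
    change 0 < FR L R D (R + s)
    omega
  set r := ((Ico R (R + s)).filter fun i => dl L D i = 0).max' hne with hr
  have hm := max'_mem _ hne
  rw [← hr] at hm
  obtain ⟨hm1, hm2⟩ := mem_filter.1 hm
  obtain ⟨hm3, hm4⟩ := mem_Ico.1 hm1
  have hDL : DL L R D r ≤ DL L R D (R + s) := sum_le_sum_of_subset (Ico_subset_Ico_right hm4.le)
  have hFR : FR L R D (R + s) ≤ FR L R D r + 1 := by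
    rw [FR, FR]
    have h3 : (Ico R (R + s)).filter (fun i => dl L D i = 0) ⊆
        insert r ((Ico R r).filter fun i => dl L D i = 0) := by
      intro i hi
      have h4 := le_max' _ i hi
      rw [← hr] at h4
      obtain ⟨h5, h6⟩ := mem_filter.1 hi
      obtain ⟨h7, -⟩ := mem_Ico.1 h5
      rcases h4.eq_or_lt with h8 | h8
      · rw [h8]
        exact mem_insert_self _ _
      · exact mem_insert_of_mem (mem_filter.2 ⟨mem_Ico.2 ⟨h7, h8⟩, h6⟩)
    exact (card_le_card h3).trans (card_insert_le _ _)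
  have key : ∀ l : List (ℕ × ℕ), (FR L R D r + 1) * L ≤ l.length + 2 * DL L R D r →
      (s - DL L R D (R + s)) * L ≤ l.length + 2 * DL L R D (R + s) := by
    intro l h1
    have h2 : (s - DL L R D (R + s)) * L ≤ (FR L R D r + 1) * L :=
      Nat.mul_le_mul_right L (by omega)
    omega
  rcases good_all D r hm3 hm2 (by omega) with h | h
  · obtain ⟨l, h1, h2, h3⟩ := exists_pth_good hm2 h
    exact ⟨l, h1, fun x hx => (h2 x hx).trans_lt hm4, key l h3⟩
  · obtain ⟨l, h1, h2, h3⟩ := exists_pth_good (by rw [dl_mir]; exact hm2) h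
    rw [FR_mir, DL_mir] at h3
    refine ⟨l.map fun x => (x.1, L - 1 - x.2), mir_mir (mir_pth h1), ?_, ?_⟩
    · intro y hy
      obtain ⟨x, hx, rfl⟩ := List.mem_map.1 hy
      exact (h2 x hx).trans_lt hm4
    · rw [List.length_map]
      exact key l h3

end count

end Pool.Agent.helper20.KP
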