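import Pool.Agent.helper20.KP.Count
import Pool.Agent.helper20.KP.Snake

/-!
# Path vertex covers of strips of the square grid
-/

set_option autoImplicit false

open Set Filter

namespace Pool.Agent.helper20.KP

/-- the square grid -/
def grid : SimpleGraph (ℕ × ℕ) where
  Adj := Adjc
  symm := ⟨fun x y h => by
    rcases h with ⟨h1, h2⟩ | ⟨h1, h2⟩
    · exact Or.inl ⟨h1.symm, h2.symm⟩
    · exact Or.inr ⟨h1.symm, h2.symm⟩⟩
  loopless := ⟨fun x h => by
    rcases h with ⟨-, h2⟩ | ⟨-, h2⟩ <;> omega⟩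

/-- the standard drawing -/
def P0 (x : ℕ × ℕ) : ℝ × ℝ := ((x.1 : ℝ), (x.2 : ℝ))

theorem P0_inj : Function.Injective P0 := by
  intro x y h
  rw [P0, P0, Prod.mk.injEq] at h
  exact Prod.ext (by exact_mod_cast h.1) (by exact_mod_cast h.2)

theorem seg_lin {a b x : ℝ × ℝ} (h : x ∈ segment ℝ a b) :
    ∃ s : ℝ, 0 ≤ s ∧ s ≤ 1 ∧ x.1 = a.1 + s * (b.1 - a.1) ∧ x.2 = a.2 + s * (b.2 - a.2) := by
  rw [segment_eq_image'] at h
  obtain ⟨s, hs, rfl⟩ := h
  exact ⟨s, hs.1, hs.2, by simp, by simp⟩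

theorem seg_H {i j : ℕ} {x : ℝ × ℝ} (h : x ∈ segment ℝ (P0 (i, j)) (P0 (i, j + 1))) :
    x.1 = i ∧ (j : ℝ) ≤ x.2 ∧ x.2 ≤ j + 1 := by
  obtain ⟨s, h0, h1, h2, h3⟩ := seg_lin h
  simp only [P0] at h2 h3
  push_cast at h3
  have h4 : x.2 = j + s := by rw [h3]; ring
  exact ⟨by rw [h2]; ring, by linarith, by linarith⟩

theorem seg_V {i j : ℕ} {x : ℝ × ℝ} (h : x ∈ segment ℝ (P0 (i, j)) (P0 (i + 1, j))) :
    x.2 = j ∧ (i : ℝ) ≤ x.1 ∧ x.1 ≤ i + 1 := by
  obtain ⟨s, h0, h1, h2, h3⟩ := seg_lin h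
  simp only [P0] at h2 h3
  push_cast at h2
  have h4 : x.1 = i + s := by rw [h2]; ring
  exact ⟨by rw [h3]; ring, by linarith, by linarith⟩

theorem seg_cases {u v : ℕ × ℕ} (huv : Adjc u v) {x : ℝ × ℝ}
    (hx : x ∈ segment ℝ (P0 u) (P0 v)) :
    (∃ i j : ℕ, x.1 = i ∧ (j : ℝ) ≤ x.2 ∧ x.2 ≤ j + 1 ∧ s(u, v) = s((i, j), (i, j + 1))) ∨
    (∃ i j : ℕ, x.2 = j ∧ (i : ℝ) ≤ x.1 ∧ x.1 ≤ i + 1 ∧ s(u, v) = s((i, j), (i + 1, j))) := by
  obtain ⟨u1, u2⟩ := u
  obtain ⟨v1, v2⟩ := v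
  simp only [Adjc] at huv
  rcases huv with ⟨rfl, rfl | rfl⟩ | ⟨rfl, rfl | rfl⟩
  · obtain ⟨h1, h2, h3⟩ := seg_H hx
    exact Or.inl ⟨u1, u2, h1, h2, h3, rfl⟩
  · rw [segment_symm] at hx
    obtain ⟨h1, h2, h3⟩ := seg_H hx
    exact Or.inl ⟨u1, v2, h1, h2, h3, Sym2.eq_swap⟩
  · obtain ⟨h1, h2, h3⟩ := seg_V hx
    exact Or.inr ⟨u1, u2, h1, h2, h3, rfl⟩
  · rw [segment_symm] at hx
    obtain ⟨h1, h2, h3⟩ := seg_V hx
    exact Or.inr ⟨v1, u2, h1, h2, h3, Sym2.eq_swap⟩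

theorem nat_between {a j : ℕ} (h1 : (j : ℝ) ≤ a) (h2 : (a : ℝ) ≤ j + 1) : a = j ∨ a = j + 1 := by
  have h3 : j ≤ a := by exact_mod_cast h1
  have h4 : a ≤ j + 1 := by exact_mod_cast h2
  omega

theorem two_between {a b : ℕ} {y : ℝ} (h1 : (a : ℝ) ≤ y) (h2 : y ≤ a + 1) (h3 : (b : ℝ) ≤ y)
    (h4 : y ≤ b + 1) : a = b ∨ (b = a + 1 ∧ y = b) ∨ (a = b + 1 ∧ y = a) := by
  have h5 : a ≤ b + 1 := by
    have : (a : ℝ) ≤ b + 1 := h1.trans h4
    exact_mod_cast this
  have h6 : b ≤ a + 1 := by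
    have : (b : ℝ) ≤ a + 1 := h3.trans h2
    exact_mod_cast this
  rcases lt_trichotomy a b with h | h | h
  · right; left
    have h7 : b = a + 1 := by omega
    refine ⟨h7, le_antisymm ?_ h3⟩
    rw [h7]
    push_cast
    exact h2
  · exact Or.inl h
  · right; right
    have h7 : a = b + 1 := by omega
    refine ⟨h7, le_antisymm ?_ h1⟩
    rw [h7]
    push_cast
    exact h4

theorem grid_drawing : Drawing grid P0 where
  inj := P0_inj
  vertex := by
    intro u v w huv hw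
    rw [← Sym2.mem_iff]
    rcases seg_cases huv hw with ⟨i, j, h1, h2, h3, h4⟩ | ⟨i, j, h1, h2, h3, h4⟩
    · rw [h4, Sym2.mem_iff]
      have h5 : w.1 = i := by
        have : (w.1 : ℝ) = i := h1
        exact_mod_cast this
      rcases nat_between (a := w.2) h2 h3 with h6 | h6
      · exact Or.inl (Prod.ext h5 h6)
      · exact Or.inr (Prod.ext h5 h6)
    · rw [h4, Sym2.mem_iff]
      have h5 : w.2 = j := by
        have : (w.2 : ℝ) = j := h1
        exact_mod_cast this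
      rcases nat_between (a := w.1) h2 h3 with h6 | h6
      · exact Or.inl (Prod.ext h6 h5)
      · exact Or.inr (Prod.ext h6 h5)
  edge := by
    intro u v u' v' huv huv' hne x hx hx'
    have key : ∀ w : ℕ × ℕ, w ∈ s(u, v) → w ∈ s(u', v') → x = P0 w →
        ∃ w, (w = u ∨ w = v) ∧ (w = u' ∨ w = v') ∧ x = P0 w := fun w h1 h2 h3 =>
      ⟨w, Sym2.mem_iff.1 h1, Sym2.mem_iff.1 h2, h3⟩
    rcases seg_cases huv hx with ⟨i, j, h1, h2, h3, h4⟩ | ⟨i, j, h1, h2, h3, h4⟩ <;>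
    rcases seg_cases huv' hx' with ⟨i', j', g1, g2, g3, g4⟩ | ⟨i', j', g1, g2, g3, g4⟩ <;>
    rw [h4, g4] at key hne
    · have h5 : i = i' := by
        have : (i : ℝ) = i' := by rw [← h1, ← g1]
        exact_mod_cast this
      subst h5
      rcases two_between h2 h3 g2 g3 with h6 | ⟨h6, h7⟩ | ⟨h6, h7⟩
      · exact absurd (by rw [h6]) hne
      · subst h6
        exact key (i, j + 1) (Sym2.mem_iff.2 (Or.inr rfl)) (Sym2.mem_iff.2 (Or.inl rfl))
          (Prod.ext h1 h7)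
      · subst h6
        exact key (i, j' + 1) (Sym2.mem_iff.2 (Or.inl rfl)) (Sym2.mem_iff.2 (Or.inr rfl))
          (Prod.ext h1 h7)
    · have h5 := nat_between (a := i) (j := i') (by rw [← h1]; exact g2) (by rw [← h1]; exact g3)
      have h6 := nat_between (a := j') (j := j) (by rw [← g1]; exact h2) (by rw [← g1]; exact h3)
      refine key (i, j') (Sym2.mem_iff.2 ?_) (Sym2.mem_iff.2 ?_) (Prod.ext h1 g1)
      · rcases h6 with h6 | h6
        · exact Or.inl (by rw [h6])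
        · exact Or.inr (by rw [h6])
      · rcases h5 with h5 | h5
        · exact Or.inl (by rw [h5])
        · exact Or.inr (by rw [h5])
    · have h5 := nat_between (a := i') (j := i) (by rw [← g1]; exact h2) (by rw [← g1]; exact h3)
      have h6 := nat_between (a := j) (j := j') (by rw [← h1]; exact g2) (by rw [← h1]; exact g3)
      refine key (i', j) (Sym2.mem_iff.2 ?_) (Sym2.mem_iff.2 ?_) (Prod.ext g1 h1)
      · rcases h5 with h5 | h5
        · exact Or.inl (by rw [h5])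
        · exact Or.inr (by rw [h5])
      · rcases h6 with h6 | h6
        · exact Or.inl (by rw [h6])
        · exact Or.inr (by rw [h6])
    · have h5 : j = j' := by
        have : (j : ℝ) = j' := by rw [← h1, ← g1]
        exact_mod_cast this
      subst h5
      rcases two_between h2 h3 g2 g3 with h6 | ⟨h6, h7⟩ | ⟨h6, h7⟩
      · exact absurd (by rw [h6]) hne
      · subst h6
        exact key (i + 1, j) (Sym2.mem_iff.2 (Or.inr rfl)) (Sym2.mem_iff.2 (Or.inl rfl))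
          (Prod.ext h7 h1)
      · subst h6
        exact key (i' + 1, j) (Sym2.mem_iff.2 (Or.inl rfl)) (Sym2.mem_iff.2 (Or.inr rfl))
          (Prod.ext h7 h1)

theorem grid_triangle {u v w : ℕ × ℕ} (h1 : Adjc u v) (h2 : Adjc u w) (h3 : Adjc v w) :
    False := by
  have key : ∀ x y : ℕ × ℕ, Adjc x y → (x.1 + x.2) % 2 ≠ (y.1 + y.2) % 2 := by
    intro x y h
    rcases h with ⟨h4, h5⟩ | ⟨h4, h5⟩ <;> omega
  have h4 := key _ _ h1
  have h5 := key _ _ h2
  have h6 := key _ _ h3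
  omega

/-- the first `n` vertices of the strip with `L` columns -/
def strip (L n : ℕ) : SimpleGraph (Fin n) := grid.comap fun m => (m.1 / L, m.1 % L)

theorem strip_inj (L n : ℕ) : Function.Injective fun m : Fin n => (m.1 / L, m.1 % L) := by
  intro m m' h
  rw [Prod.mk.injEq] at h
  have h1 := Nat.div_add_mod m.1 L
  have h2 := Nat.div_add_mod m'.1 L
  refine Fin.ext ?_
  rw [← h1, ← h2, h.1, h.2]

theorem strip_planar (L n : ℕ) : Planar (strip L n) :=
  ⟨_, Drawing.comap grid_drawing (strip_inj L n)⟩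

theorem strip_cliqueFree (L n : ℕ) : (strip L n).CliqueFree 3 := by
  intro s hs
  rw [SimpleGraph.is3Clique_iff] at hs
  obtain ⟨a, b, c, h1, h2, h3, -⟩ := hs
  exact grid_triangle h1 h2 h3

theorem strip_window {k L n : ℕ} (hL : 1 ≤ L) (hk : k ≤ L ^ 2 + 2) {S : Finset (Fin n)}
    (hS : IsCover k (strip L n) S) (R : ℕ) (hR : L * (R + (2 * L + 1)) ≤ n) :
    L ≤ ∑ i ∈ Finset.Ico R (R + (2 * L + 1)),
      dl L (fun r c => ∃ h : L * r + c < n, (⟨L * r + c, h⟩ : Fin n) ∈ S) i := by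
  set D : ℕ → ℕ → Prop := fun r c => ∃ h : L * r + c < n, (⟨L * r + c, h⟩ : Fin n) ∈ S with hD
  by_contra hcon
  have ht : DL L R D (R + (2 * L + 1)) < L := not_le.1 hcon
  obtain ⟨l, hl, hrow, hlen⟩ := exists_pth D ht (by omega)
  set t := DL L R D (R + (2 * L + 1)) with htdef
  -- the path is long enough
  have hlen2 : L ^ 2 + 2 ≤ l.length := by
    obtain ⟨d, hd⟩ := Nat.exists_eq_add_of_lt ht
    have h1 : 2 * L + 1 - t = L + 2 + d := by omega
    rw [h1] at hlen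
    have h2 : (L + 2 + d) * L = L ^ 2 + 2 * L + d * L := by ring
    have h3 : 2 * t = 2 * L - 2 * d - 2 := by omega
    have h4 : 0 ≤ d * L := Nat.zero_le _
    rw [h2] at hlen
    omega
  -- its first `k` cells
  have hlt : ∀ x ∈ l.take k, L * x.1 + x.2 < n := by
    intro x hx
    have h1 := hrow x (List.mem_of_mem_take hx)
    have h2 := hl.col x (List.mem_of_mem_take hx)
    have h3 : L * (x.1 + 1) ≤ L * (R + (2 * L + 1)) := Nat.mul_le_mul_left L h1
    rw [Nat.mul_add, Nat.mul_one] at h3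
    omega
  have hdiv : ∀ x ∈ l.take k, (L * x.1 + x.2) / L = x.1 ∧ (L * x.1 + x.2) % L = x.2 := by
    intro x hx
    have h2 := hl.col x (List.mem_of_mem_take hx)
    constructor
    · rw [Nat.mul_add_div (by omega), Nat.div_eq_of_lt h2, add_zero]
    · rw [Nat.mul_add_mod, Nat.mod_eq_of_lt h2]
  have hmap : ((l.take k).pmap (fun x hx => (⟨L * x.1 + x.2, hx⟩ : Fin n)) hlt).map
      (fun m : Fin n => (m.1 / L, m.1 % L)) = l.take k := by
    rw [List.map_pmap]
    have h1 : (l.take k).pmap (fun x _ => ((L * x.1 + x.2) / L, (L * x.1 + x.2) % L)) hlt =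
        (l.take k).pmap (fun x _ => x) hlt := by
      refine List.pmap_congr_left _ fun x hx _ _ => ?_
      obtain ⟨h1, h2⟩ := hdiv x hx
      exact Prod.ext h1 h2
    rw [h1]
    simp
  obtain ⟨v, hv, hvS⟩ := hS
    ((l.take k).pmap (fun x hx => (⟨L * x.1 + x.2, hx⟩ : Fin n)) hlt)
    (by rw [List.length_pmap, List.length_take]; omega)
    (List.Nodup.of_map (fun m : Fin n => (m.1 / L, m.1 % L)) (by
      rw [hmap]
      exact (List.take_sublist k l).nodup hl.nodup)) (by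
      have h1 : (((l.take k).pmap (fun x hx => (⟨L * x.1 + x.2, hx⟩ : Fin n)) hlt).map
        (fun m : Fin n => (m.1 / L, m.1 % L))).IsChain Adjc := by
        rw [hmap]
        exact hl.chain.take k
      exact (List.isChain_map (fun m : Fin n => (m.1 / L, m.1 % L))).1 h1)
  obtain ⟨x, hx, rfl⟩ := List.mem_pmap.1 hv
  exact hl.free x (List.mem_of_mem_take hx) ⟨_, hvS⟩

theorem strip_card {k L n : ℕ} (hL : 1 ≤ L) (hk : k ≤ L ^ 2 + 2) {S : Finset (Fin n)}
    (hS : IsCover k (strip L n) S) (J : ℕ) (hJ : L * ((2 * L + 1) * J) ≤ n) : L * J ≤ S.card := by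
  classical
  set D : ℕ → ℕ → Prop := fun r c => ∃ h : L * r + c < n, (⟨L * r + c, h⟩ : Fin n) ∈ S with hD
  have h1 : ∀ j ≤ J, L * j ≤ ∑ i ∈ Finset.Ico 0 ((2 * L + 1) * j), dl L D i := by
    intro j
    induction j with
    | zero => intro _; simp
    | succ j ih =>
      intro hj
      have h2 := ih (by omega)
      have h3 : (2 * L + 1) * (j + 1) = (2 * L + 1) * j + (2 * L + 1) := by ring
      have h4 : (2 * L + 1) * (j + 1) ≤ (2 * L + 1) * J := Nat.mul_le_mul_left _ hj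
      rw [h3] at h4
      have h5 := strip_window hL hk hS ((2 * L + 1) * j)
        ((Nat.mul_le_mul_left L h4).trans hJ)
      rw [h3, ← Finset.sum_Ico_consecutive _ (Nat.zero_le ((2 * L + 1) * j)) (Nat.le_add_right _ _),
        Nat.mul_add, Nat.mul_one]
      exact Nat.add_le_add h2 h5
  refine (h1 J le_rfl).trans ?_
  have h2 : ∑ i ∈ Finset.Ico 0 ((2 * L + 1) * J), dl L D i =
      ((Finset.Ico 0 ((2 * L + 1) * J)).sigma fun i =>
        (Finset.range L).filter fun c => D i c).card := by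
    rw [Finset.card_sigma]
    refine Finset.sum_congr rfl fun i _ => ?_
    rw [dl]
    congr!
  rw [h2, ← Finset.card_map Fin.valEmbedding (s := S)]
  refine Finset.card_le_card_of_injOn (fun x : (_ : ℕ) × ℕ => L * x.1 + x.2) ?_ ?_
  · rintro ⟨r, c⟩ hx
    obtain ⟨-, h3⟩ := Finset.mem_sigma.1 (Finset.mem_coe.1 hx)
    obtain ⟨h4, h5⟩ := (Finset.mem_filter.1 h3).2
    exact Finset.mem_coe.2 (Finset.mem_map.2 ⟨⟨L * r + c, h4⟩, h5, rfl⟩)
  · rintro ⟨r, c⟩ hx ⟨r', c'⟩ hx' h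
    obtain ⟨-, h3⟩ := Finset.mem_sigma.1 (Finset.mem_coe.1 hx)
    obtain ⟨-, h3'⟩ := Finset.mem_sigma.1 (Finset.mem_coe.1 hx')
    have h4 := Finset.mem_range.1 (Finset.mem_filter.1 h3).1
    have h4' := Finset.mem_range.1 (Finset.mem_filter.1 h3').1
    have h : L * r + c = L * r' + c' := h
    simp only at h4 h4'
    have h5 : r = r' := by
      have e1 : (L * r + c) / L = r := by
        rw [Nat.mul_add_div (by omega), Nat.div_eq_of_lt h4, add_zero]
      have e2 : (L * r' + c') / L = r' := by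
        rw [Nat.mul_add_div (by omega), Nat.div_eq_of_lt h4', add_zero]
      rw [← e1, ← e2, h]
    subst h5
    have h6 : c = c' := by omega
    subst h6
    rfl

theorem strip_fmax {k L : ℕ} (hk1 : 1 ≤ k) (hL : 1 ≤ L) (hk : k ≤ L ^ 2 + 2) (n J : ℕ)
    (hJ : L * (2 * L + 1) * J ≤ n) : L * J ≤ fmax k n := by
  have h1 : psi k (strip L n) ≤ fmax k n :=
    le_csSup (fmax_bdd hk1 n) ⟨strip L n, strip_planar L n, strip_cliqueFree L n, rfl⟩
  have h2 : L * J ≤ psi k (strip L n) := le_psi hk1 _ fun S hS =>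
    strip_card hL hk hS J (by rw [← Nat.mul_assoc]; exact hJ)
  omega

/-- the bound for all `k` -/
theorem c2_strip {k L : ℕ} (hk1 : 1 ≤ k) (hL : 1 ≤ L) (hk : k ≤ L ^ 2 + 2) :
    1 / (2 * L + 1 : ℝ) ≤ c2 k := by
  have h := le_c2 hk1 (N := L * (2 * L + 1)) (q := L) (d := 1) (C := 0) (by nlinarith) le_rfl
    fun n J hJ => by
      have := strip_fmax hk1 hL hk n J (by omega)
      omega
  have hL0 : (0 : ℝ) < L := by exact_mod_cast hL
  have h1 : ((L : ℕ) : ℝ) / (((1 : ℕ) : ℝ) * ((L * (2 * L + 1) : ℕ) : ℝ)) =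
      1 / (2 * L + 1 : ℝ) := by
    push_cast
    field_simp
  rw [h1] at h
  exact h

end Pool.Agent.helper20.KP
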