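import Pool.Agent.helper20.KP.Count

/-!
# Checking a gadget by a search tree
-/

set_option autoImplicit false

namespace Pool.Agent.helper20.KP

/-- branch on the vertices of a path: the first vertex in the set is `v`; the vertices before it
are marked as not in the set -/
def brList (f : ℕ → ℕ → Bool) : List ℕ → ℕ → ℕ → Bool
  | [], _, _ => true
  | v :: t, a, b => (Nat.testBit b v || f (a ||| 2 ^ v) b) && brList f t a (b ||| 2 ^ v)

/-- the list of the first `k` digits of `c` in base 32 -/
def dec : ℕ → ℕ → List ℕ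
  | 0, _ => []
  | k + 1, c => c % 32 :: dec k (c / 32)

/-- drop the paths which are hit by `a` until the first one which is not; paths are given by
their vertex set (a binary number) and by their list of vertices (a number in base 32) -/
def unhit (a : ℕ) : List (ℕ × ℕ) → List (ℕ × ℕ)
  | [] => []
  | p :: l => if Nat.beq (a &&& p.1) 0 then p :: l else unhit a l

/-- the search: all sets `m` with `a ⊆ m`, `b ∩ m = ∅` which hit all paths satisfy `F` -/
def run (F : ℕ → Bool) (k : ℕ) : ℕ → List (ℕ × ℕ) → ℕ → ℕ → Bool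
  | 0, _, _, _ => false
  | n + 1, pl, a, b => F a || match unhit a pl with
    | [] => false
    | p :: l => brList (run F k n l) (dec k p.2) a b

theorem unhit_mem {a : ℕ} {pl : List (ℕ × ℕ)} {q : ℕ × ℕ} (h : q ∈ unhit a pl) : q ∈ pl := by
  induction pl with
  | nil => simp [unhit] at h
  | cons p l ih =>
    rw [unhit] at h
    split at h
    · exact h
    · exact List.mem_cons_of_mem _ (ih h)

/-- the current knowledge about `m` -/
def Kn (m a b : ℕ) : Prop :=
  (∀ j, a.testBit j = true → m.testBit j = true) ∧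
    ∀ j, b.testBit j = true → m.testBit j = false

theorem Kn.ins {m a b v : ℕ} (h : Kn m a b) (hv : m.testBit v = true) : Kn m (a ||| 2 ^ v) b := by
  refine ⟨fun j hj => ?_, h.2⟩
  rw [Nat.testBit_or, Bool.or_eq_true, Nat.testBit_two_pow, decide_eq_true_eq] at hj
  rcases hj with hj | hj
  · exact h.1 j hj
  · rw [← hj]
    exact hv

theorem Kn.del {m a b v : ℕ} (h : Kn m a b) (hv : m.testBit v = false) :
    Kn m a (b ||| 2 ^ v) := by
  refine ⟨h.1, fun j hj => ?_⟩
  rw [Nat.testBit_or, Bool.or_eq_true, Nat.testBit_two_pow, decide_eq_true_eq] at hj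
  rcases hj with hj | hj
  · exact h.2 j hj
  · rw [← hj]
    exact hv

theorem brList_spec {m : ℕ} {P : Prop} {f : ℕ → ℕ → Bool}
    (hf : ∀ a b, f a b = true → Kn m a b → P) :
    ∀ (l : List ℕ) (a b : ℕ), brList f l a b = true → Kn m a b →
      (∃ j ∈ l, m.testBit j = true) → P
  | [], a, b, _, _, ⟨j, hj, _⟩ => by simp at hj
  | v :: t, a, b, h, hk, ⟨j, hj, hj2⟩ => by
    rw [brList, Bool.and_eq_true, Bool.or_eq_true] at h
    obtain ⟨h1, h2⟩ := h
    by_cases hv : m.testBit v = true
    · rcases h1 with h1 | h1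
      · have h3 := hk.2 v h1
        rw [hv] at h3
        simp at h3
      · exact hf _ _ h1 (hk.ins hv)
    · have hv' : m.testBit v = false := by simpa using hv
      refine brList_spec hf t _ _ h2 (hk.del hv') ⟨j, ?_, hj2⟩
      rcases List.mem_cons.1 hj with rfl | hj
      · exact absurd hj2 hv
      · exact hj

theorem run_spec {F : ℕ → Bool} {k : ℕ} {m : ℕ}
    (hF : ∀ a, (∀ j, a.testBit j = true → m.testBit j = true) → F a = true → F m = true) :
    ∀ (n : ℕ) (pl : List (ℕ × ℕ)) (a b : ℕ), (∀ p ∈ pl, ∃ j ∈ dec k p.2, m.testBit j = true) →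
      run F k n pl a b = true → Kn m a b → F m = true
  | 0, _, a, b, _, h, _ => by simp [run] at h
  | n + 1, pl, a, b, hm, h, hk => by
    rw [run, Bool.or_eq_true] at h
    rcases h with h | h
    · exact hF a hk.1 h
    · split at h
      · simp at h
      · rename_i p l hp
        have h1 : ∀ q ∈ p :: l, q ∈ pl := fun q hq => unhit_mem (a := a) (by rw [hp]; exact hq)
        refine brList_spec (fun a b h2 h3 => run_spec hF n l a b (fun q hq => ?_) h2 h3) _ _ _ h hk
          (hm p (h1 p List.mem_cons_self))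
        exact hm q (h1 q (List.mem_cons_of_mem _ hq))

/-- the inequality -/
def bd (N q d : ℕ) (g : Bool → Bool → ℕ) (m : ℕ) : Bool :=
  Nat.ble (q + g (m.testBit N) (m.testBit (N + 1)))
    (d * cnt N m + g (m.testBit 0) (m.testBit 1))

/-- the potential is monotone and does not grow too fast -/
def gOK (d : ℕ) (g : Bool → Bool → ℕ) : Bool :=
  decide (∀ x y x' y' : Bool, (x = true → x' = true) → (y = true → y' = true) →
    g x y ≤ g x' y' ∧ g x' y' + d * (x.toNat + y.toNat) ≤ g x y + d * (x'.toNat + y'.toNat))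

theorem cnt_split {N : ℕ} (hN : 2 ≤ N) (m : ℕ) : cnt N m = cnt (N - 2) m +
    ((m.testBit N).toNat + (m.testBit (N + 1)).toNat) := by
  obtain ⟨M, rfl⟩ := Nat.exists_eq_add_of_le hN
  rw [show 2 + M = (M + 1) + 1 by ring, cnt, cnt]
  rw [show M + 1 + 1 - 2 = M by omega, show M + 1 + 2 = M + 1 + 1 + 1 by ring,
    show M + 2 = M + 1 + 1 by ring]
  ring

theorem cnt_mono (n : ℕ) {a m : ℕ} (h : ∀ j, a.testBit j = true → m.testBit j = true) :
    cnt n a ≤ cnt n m := by
  rw [cnt_eq, cnt_eq]
  refine Finset.sum_le_sum fun j _ => ?_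
  have h1 := h (j + 2)
  cases h2 : a.testBit (j + 2)
  · simp
  · rw [h1 h2]

theorem bd_mono {N q d : ℕ} {g : Bool → Bool → ℕ} (hN : 2 ≤ N) (hg : gOK d g = true) {a m : ℕ}
    (h : ∀ j, a.testBit j = true → m.testBit j = true) (ha : bd N q d g a = true) :
    bd N q d g m = true := by
  have hg' := of_decide_eq_true hg
  have h1 := (hg' _ _ _ _ (h 0) (h 1)).1
  have h2 := (hg' _ _ _ _ (h N) (h (N + 1))).2
  have h3 := Nat.mul_le_mul_left d (cnt_mono (N - 2) h)
  have h4 := Nat.le_of_ble_eq_true ha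
  rw [cnt_split hN a, Nat.mul_add] at h4
  rw [bd]
  refine Nat.ble_eq_true_of_le ?_
  rw [cnt_split hN m, Nat.mul_add]
  omega

/-- the search gives the inequality for all sets -/
theorem ok_of_run {N k q d n : ℕ} {g : Bool → Bool → ℕ} {pl : List (ℕ × ℕ)} (hN : 2 ≤ N)
    (hg : gOK d g = true) (h : run (bd N q d g) k n pl 0 0 = true) :
    ∀ m < 2 ^ (N + 2), ok N q d g (pl.map fun p => dec k p.2) m = true := by
  intro m _
  rw [ok, Bool.or_eq_true]
  by_cases hall : ((pl.map fun p => dec k p.2).all fun p => p.any fun j => m.testBit j) = true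
  · left
    refine run_spec (F := bd N q d g) (fun a ha hF => bd_mono hN hg ha hF) n pl 0 0 ?_ h
      ⟨fun j hj => by simp at hj, fun j hj => by simp at hj⟩
    intro p hp
    have h1 := (List.all_eq_true.1 hall) (dec k p.2) (List.mem_map.2 ⟨p, hp, rfl⟩)
    obtain ⟨j, hj, hj2⟩ := List.any_eq_true.1 h1
    exact ⟨j, hj, hj2⟩
  · right
    simpa using hall

/-! ### checking the paths -/

/-- the number `am` codes the adjacency matrix -/
def okA (N : ℕ) (E : List (ℕ × ℕ)) (am : ℕ) : Bool :=
  (List.range 32).all fun u => (List.range 32).all fun v =>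
    !(am.testBit (32 * u + v)) || (adjE E u v && Nat.ble v (N + 1))

/-- the digits of `c` continue a path which ends in `u` and has the vertex set `s` -/
def chk (am : ℕ) : ℕ → ℕ → ℕ → ℕ → Bool
  | 0, _, _, _ => true
  | k + 1, c, u, s => am.testBit (32 * u + c % 32) && !(s.testBit (c % 32)) &&
      chk am k (c / 32) (c % 32) (s ||| 2 ^ (c % 32))

/-- all codes are codes of paths with `k + 1` vertices -/
def chkAll (N am k : ℕ) (pl : List (ℕ × ℕ)) : Bool :=
  pl.all fun p => Nat.ble (p.2 % 32) (N + 1) &&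
    chk am k (p.2 / 32) (p.2 % 32) (2 ^ (p.2 % 32))

theorem chk_spec {N am : ℕ} {E : List (ℕ × ℕ)} (hA : okA N E am = true) :
    ∀ k c u s : ℕ, u < 32 → chk am k c u s = true → (dec k c).length = k ∧
      (∀ x ∈ dec k c, s.testBit x = false ∧ x ≤ N + 1) ∧ (dec k c).Nodup ∧
      ((u :: dec k c).IsChain fun a b => adjE E a b = true)
  | 0, c, u, s, _, _ => by simp [dec]
  | k + 1, c, u, s, hu, h => by
    rw [chk, Bool.and_eq_true, Bool.and_eq_true] at h
    obtain ⟨⟨h1, h2⟩, h3⟩ := h
    have hv : c % 32 < 32 := Nat.mod_lt _ (by norm_num)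
    obtain ⟨i1, i2, i3, i4⟩ := chk_spec hA k (c / 32) (c % 32) _ hv h3
    have h4 := (List.all_eq_true.1 ((List.all_eq_true.1 hA) u (List.mem_range.2 hu))) (c % 32)
      (List.mem_range.2 hv)
    rw [h1, Bool.not_true, Bool.false_or, Bool.and_eq_true] at h4
    have h2' : s.testBit (c % 32) = false := by simpa using h2
    rw [dec]
    refine ⟨by simp [i1], ?_, ?_, ?_⟩
    · intro x hx
      rcases List.mem_cons.1 hx with rfl | hx
      · exact ⟨h2', Nat.le_of_ble_eq_true h4.2⟩
      · obtain ⟨h5, h6⟩ := i2 x hx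
        rw [Nat.testBit_or, Bool.or_eq_false_iff] at h5
        exact ⟨h5.1, h6⟩
    · refine List.nodup_cons.2 ⟨fun hx => ?_, i3⟩
      have h5 := (i2 _ hx).1
      rw [Nat.testBit_or, Bool.or_eq_false_iff, Nat.testBit_two_pow_self] at h5
      simp at h5
    · exact List.isChain_cons_cons.2 ⟨h4.1, i4⟩

theorem okPaths_of {N am k : ℕ} {E : List (ℕ × ℕ)} {pl : List (ℕ × ℕ)}
    (hA : okA N E am = true) (h : chkAll N am k pl = true) :
    okPaths N (k + 1) E (pl.map fun p => dec (k + 1) p.2) = true := by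
  rw [okPaths, List.all_eq_true]
  intro x hx
  obtain ⟨p, hp, rfl⟩ := List.mem_map.1 hx
  have h1 := (List.all_eq_true.1 h) p hp
  rw [Bool.and_eq_true] at h1
  have hv : p.2 % 32 < 32 := Nat.mod_lt _ (by norm_num)
  obtain ⟨i1, i2, i3, i4⟩ := chk_spec hA k _ _ _ hv h1.2
  simp only [Bool.and_eq_true, decide_eq_true_eq, List.all_eq_true]
  refine ⟨⟨⟨?_, ?_⟩, ?_⟩, ?_⟩
  · rw [dec, List.length_cons, i1]
  · rw [dec]
    refine List.nodup_cons.2 ⟨fun hx => ?_, i3⟩
    have h5 := (i2 _ hx).1
    rw [Nat.testBit_two_pow_self] at h5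
    simp at h5
  · rw [dec]
    exact i4
  · intro j hj
    rw [dec] at hj
    refine Nat.ble_eq_true_of_le ?_
    rcases List.mem_cons.1 hj with rfl | hj
    · exact Nat.le_of_ble_eq_true h1.1
    · exact (i2 _ hj).2

end Pool.Agent.helper20.KP
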